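import Mathlib

/-!
# Packed planes

`pk k N f` is the number with the `N` digits `f 0, …, f (N-1)` of `k` bits each. Comparison and
maximum of two planes by a few operations on large numbers.
-/

set_option autoImplicit false

namespace Pool.Agent.Helper51.NE

open Finset

/-- the packed plane of `f`, `N` entries of `k` bits -/
def pk (k N : ℕ) (f : ℕ → ℕ) : ℕ := ∑ n ∈ range N, f n * 2 ^ (k * n)

theorem pk_zero (k : ℕ) (f : ℕ → ℕ) : pk k 0 f = 0 := by simp [pk]

theorem pk_succ (k N : ℕ) (f : ℕ → ℕ) : pk k (N + 1) f = pk k N f + f N * 2 ^ (k * N) := by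
  simp [pk, sum_range_succ]

/-- Horner form -/
theorem pk_succ' (k N : ℕ) (f : ℕ → ℕ) :
    pk k (N + 1) f = f 0 + 2 ^ k * pk k N (fun n => f (n + 1)) := by
  unfold pk
  rw [sum_range_succ', mul_sum, add_comm]
  congr 1
  · simp
  · refine sum_congr rfl fun n _ => ?_
    rw [show k * (n + 1) = k + k * n by ring, pow_add]
    ring

theorem pk_congr {k N : ℕ} {f g : ℕ → ℕ} (h : ∀ n, n < N → f n = g n) : pk k N f = pk k N g :=
  sum_congr rfl fun n hn => by rw [h n (mem_range.1 hn)]

theorem pk_add (k N : ℕ) (f g : ℕ → ℕ) : pk k N (fun n => f n + g n) = pk k N f + pk k N g := by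
  unfold pk
  rw [← sum_add_distrib]
  exact sum_congr rfl fun n _ => by ring

theorem pk_smul (k N c : ℕ) (f : ℕ → ℕ) : pk k N (fun n => c * f n) = c * pk k N f := by
  unfold pk
  rw [mul_sum]
  exact sum_congr rfl fun n _ => by ring

theorem pk_const (k N c : ℕ) : pk k N (fun _ => c) = c * pk k N (fun _ => 1) := by
  rw [← pk_smul]
  simp

theorem pk_mono {k N : ℕ} {f g : ℕ → ℕ} (h : ∀ n, n < N → f n ≤ g n) : pk k N f ≤ pk k N g :=
  sum_le_sum fun n hn => Nat.mul_le_mul_right _ (h n (mem_range.1 hn))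

theorem pk_sub {k N : ℕ} {f g : ℕ → ℕ} (h : ∀ n, n < N → g n ≤ f n) :
    pk k N (fun n => f n - g n) = pk k N f - pk k N g := by
  have e : pk k N (fun n => f n - g n) + pk k N g = pk k N f := by
    rw [← pk_add]
    exact pk_congr fun n hn => by
      have := h n hn
      omega
  omega

theorem pk_lt {k N : ℕ} {f : ℕ → ℕ} (h : ∀ n, n < N → f n < 2 ^ k) : pk k N f < 2 ^ (k * N) := by
  induction N generalizing f with
  | zero => simp [pk_zero]
  | succ N ih =>
    rw [pk_succ', show k * (N + 1) = k + k * N by ring, pow_add]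
    have h1 := ih (f := fun n => f (n + 1)) fun n hn => h (n + 1) (by omega)
    have h0 := h 0 (by omega)
    calc f 0 + 2 ^ k * pk k N (fun n => f (n + 1))
        < 2 ^ k + 2 ^ k * pk k N (fun n => f (n + 1)) := by omega
      _ = 2 ^ k * (pk k N (fun n => f (n + 1)) + 1) := by ring
      _ ≤ 2 ^ k * 2 ^ (k * N) := Nat.mul_le_mul_left _ h1

/-- the bits of a packed plane -/
theorem pk_testBit {k N : ℕ} {f : ℕ → ℕ} (h : ∀ n, n < N → f n < 2 ^ k) {n j : ℕ} (hn : n < N)
    (hj : j < k) : (pk k N f).testBit (k * n + j) = (f n).testBit j := by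
  induction N generalizing f n with
  | zero => omega
  | succ N ih =>
    rw [pk_succ', add_comm (f 0), Nat.testBit_two_pow_mul_add _ (h 0 (by omega))]
    cases n with
    | zero =>
      rw [if_pos (by omega)]
      simp
    | succ n =>
      rw [if_neg (by rw [show k * (n + 1) = k + k * n by ring]; omega)]
      rw [show k * (n + 1) + j - k = k * n + j by
        rw [show k * (n + 1) = k + k * n by ring]
        omega]
      exact ih (f := fun n => f (n + 1)) (fun m hm => h (m + 1) (by omega)) (by omega)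

/-- the bits above a packed plane -/
theorem pk_testBit_ge {k N : ℕ} {f : ℕ → ℕ} (h : ∀ n, n < N → f n < 2 ^ k) {i : ℕ}
    (hi : k * N ≤ i) : (pk k N f).testBit i = false :=
  Nat.testBit_lt_two_pow ((pk_lt h).trans_le (Nat.pow_le_pow_right (by norm_num) hi))

theorem split_ix {k N i : ℕ} (hk : 0 < k) (hi : i < k * N) :
    ∃ n j, n < N ∧ j < k ∧ i = k * n + j :=
  ⟨i / k, i % k, Nat.div_lt_of_lt_mul hi, Nat.mod_lt _ hk, (Nat.div_add_mod _ _).symm⟩

theorem pk_land {k N : ℕ} {f g : ℕ → ℕ} (hf : ∀ n, n < N → f n < 2 ^ k)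
    (hg : ∀ n, n < N → g n < 2 ^ k) :
    Nat.land (pk k N f) (pk k N g) = pk k N (fun n => Nat.land (f n) (g n)) := by
  have hl : ∀ n, n < N → Nat.land (f n) (g n) < 2 ^ k := fun n hn =>
    (Nat.and_le_left (n := f n) (m := g n)).trans_lt (hf n hn)
  rcases Nat.eq_zero_or_pos k with hk | hk
  · subst hk
    have e1 : pk 0 N f = 0 := by
      refine sum_eq_zero fun n hn => ?_
      have := hf n (mem_range.1 hn)
      simp at this
      simp [this]
    have e2 : pk 0 N (fun n => Nat.land (f n) (g n)) = 0 := by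
      refine sum_eq_zero fun n hn => ?_
      have := hl n (mem_range.1 hn)
      simp only [pow_zero, Nat.lt_one_iff] at this
      show Nat.land (f n) (g n) * _ = 0
      rw [this, zero_mul]
    rw [e1, e2]
    exact Nat.zero_and _
  · refine Nat.eq_of_testBit_eq fun i => ?_
    rw [show Nat.land (pk k N f) (pk k N g) = pk k N f &&& pk k N g from rfl, Nat.testBit_and]
    rcases lt_or_ge i (k * N) with hi | hi
    · obtain ⟨n, j, hn, hj, rfl⟩ := split_ix hk hi
      rw [pk_testBit hf hn hj, pk_testBit hg hn hj, pk_testBit hl hn hj]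
      exact (Nat.testBit_and (f n) (g n) j).symm
    · rw [pk_testBit_ge hf hi, pk_testBit_ge hl hi]
      rfl

/-- the plane of the top bits -/
def top (k N : ℕ) : ℕ := pk (k + 1) N (fun _ => 2 ^ k)

/-- the shifted difference of two planes -/
theorem pk_diff {k N : ℕ} {f g : ℕ → ℕ} (hf : ∀ n, n < N → f n ≤ 2 ^ k) :
    pk (k + 1) N (fun n => g n + 2 ^ k - f n) = pk (k + 1) N g + top k N - pk (k + 1) N f := by
  rw [pk_sub (f := fun n => g n + 2 ^ k) (g := f) fun n hn => by
    have := hf n hn
    omega, pk_add]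
  rfl

theorem testBit_top {k x : ℕ} (h : x < 2 ^ (k + 1)) : x.testBit k = true ↔ 2 ^ k ≤ x := by
  constructor
  · intro hb
    by_contra hcon
    rw [Nat.testBit_lt_two_pow (not_le.1 hcon)] at hb
    exact absurd hb (by decide)
  · intro hx
    obtain ⟨y, rfl⟩ : ∃ y, x = 2 ^ k + y := ⟨x - 2 ^ k, by omega⟩
    have hy : y < 2 ^ k := by
      rw [pow_succ] at h
      omega
    rw [Nat.testBit_two_pow_add_eq, Nat.testBit_lt_two_pow hy]
    rfl

/-- **Comparison of two planes.** -/
theorem le_of_land {k N : ℕ} {f g : ℕ → ℕ} (hf : ∀ n, n < N → f n < 2 ^ k)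
    (hg : ∀ n, n < N → g n < 2 ^ k)
    (h : Nat.land (pk (k + 1) N g + top k N - pk (k + 1) N f) (top k N) = top k N) :
    ∀ n, n < N → f n ≤ g n := by
  intro n hn
  rw [← pk_diff fun n hn => (hf n hn).le] at h
  have hd : ∀ n, n < N → g n + 2 ^ k - f n < 2 ^ (k + 1) := fun n hn => by
    have := hg n hn
    rw [pow_succ]
    omega
  have ht : ∀ n, n < N → (fun _ => 2 ^ k : ℕ → ℕ) n < 2 ^ (k + 1) := fun n _ => by
    show 2 ^ k < 2 ^ (k + 1)
    exact Nat.pow_lt_pow_right (by norm_num) (by omega)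
  have e := congrArg (fun x => x.testBit ((k + 1) * n + k)) h
  beta_reduce at e
  rw [show Nat.land (pk (k + 1) N (fun n => g n + 2 ^ k - f n)) (top k N) =
    pk (k + 1) N (fun n => g n + 2 ^ k - f n) &&& top k N from rfl, Nat.testBit_and] at e
  unfold top at e
  rw [pk_testBit hd hn (by omega), pk_testBit ht hn (by omega)] at e
  have e2 : (2 ^ k : ℕ).testBit k = true := Nat.testBit_two_pow_self
  rw [e2, Bool.and_true] at e
  have h3 : 2 ^ k ≤ g n + 2 ^ k - f n := (testBit_top (hd n hn)).1 e
  have h4 := hf n hn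
  omega

/-- the same as a boolean test on given numbers, `T` the plane of the top bits -/
def leb (T F G : ℕ) : Bool := Nat.beq (Nat.land (Nat.sub (Nat.add G T) F) T) T

theorem le_of_leb {k N T F G : ℕ} {f g : ℕ → ℕ} (hT : T = top k N) (hF : F = pk (k + 1) N f)
    (hG : G = pk (k + 1) N g) (hf : ∀ n, n < N → f n < 2 ^ k) (hg : ∀ n, n < N → g n < 2 ^ k)
    (h : leb T F G = true) : ∀ n, n < N → f n ≤ g n := by
  subst hF hG hT
  exact le_of_land hf hg (Nat.eq_of_beq_eq_true h)

/-- **all entries are bounded**: one comparison with a constant plane; no carry can hide a large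
entry when the number itself is below `2 ^ ((k+1) N)` and its top bits vanish -/
theorem lt_of_land {k N : ℕ} {f : ℕ → ℕ} (hf : ∀ n, n < N → f n < 2 ^ (k + 1))
    (h : Nat.land (pk (k + 1) N f) (top k N) = 0) : ∀ n, n < N → f n < 2 ^ k := by
  intro n hn
  have ht : ∀ n, n < N → (fun _ => 2 ^ k : ℕ → ℕ) n < 2 ^ (k + 1) := fun n _ => by
    show 2 ^ k < 2 ^ (k + 1)
    exact Nat.pow_lt_pow_right (by norm_num) (by omega)
  have e := congrArg (fun x => x.testBit ((k + 1) * n + k)) h
  beta_reduce at e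
  rw [show Nat.land (pk (k + 1) N f) (top k N) = pk (k + 1) N f &&& top k N from rfl,
    Nat.testBit_and] at e
  unfold top at e
  rw [pk_testBit hf hn (by omega), pk_testBit ht hn (by omega)] at e
  have e2 : (2 ^ k : ℕ).testBit k = true := Nat.testBit_two_pow_self
  rw [e2, Bool.and_true, Nat.zero_testBit] at e
  by_contra hcon
  have := (testBit_top (hf n hn)).2 (not_lt.1 hcon)
  rw [this] at e
  exact absurd e (by decide)

/-! ### the maximum of two planes -/

/-- maximum of two planes: `X` the shifted difference, `M` its top bits, mask `M - M / 2 ^ k` -/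
def maxp (k T F G : ℕ) : ℕ :=
  let X := F + T - G
  let M := Nat.land X T
  G + Nat.land (X - M) (M - Nat.shiftRight M k)

theorem land_top_digit {k x : ℕ} (h : x < 2 ^ (k + 1)) :
    Nat.land x (2 ^ k) = if 2 ^ k ≤ x then 2 ^ k else 0 := by
  refine Nat.eq_of_testBit_eq fun i => ?_
  rw [show Nat.land x (2 ^ k) = x &&& 2 ^ k from rfl, Nat.testBit_and, Nat.testBit_two_pow]
  by_cases hi : k = i
  · subst hi
    by_cases hx : 2 ^ k ≤ x
    · rw [if_pos hx, Nat.testBit_two_pow_self, (testBit_top h).2 hx]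
      simp
    · rw [if_neg hx, Nat.testBit_lt_two_pow (not_le.1 hx)]
      simp
  · by_cases hx : 2 ^ k ≤ x
    · rw [if_pos hx, Nat.testBit_two_pow]
      simp [hi]
    · rw [if_neg hx]
      simp [hi]

theorem shift_digit {k N : ℕ} {c : ℕ → ℕ} :
    Nat.shiftRight (pk (k + 1) N (fun n => 2 ^ k * c n)) k = pk (k + 1) N c := by
  rw [pk_smul, show Nat.shiftRight (2 ^ k * pk (k + 1) N c) k = (2 ^ k * pk (k + 1) N c) >>> k
    from rfl, Nat.shiftRight_eq_div_pow, Nat.mul_div_cancel_left _ (by positivity)]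

theorem land_mask {k x : ℕ} (h : x < 2 ^ k) : Nat.land x (2 ^ k - 1) = x := by
  rw [show Nat.land x (2 ^ k - 1) = x &&& (2 ^ k - 1) from rfl, Nat.and_two_pow_sub_one_eq_mod,
    Nat.mod_eq_of_lt h]

theorem maxp_eq {k N : ℕ} {f g : ℕ → ℕ} (hf : ∀ n, n < N → f n < 2 ^ k)
    (hg : ∀ n, n < N → g n < 2 ^ k) :
    maxp k (top k N) (pk (k + 1) N f) (pk (k + 1) N g) =
      pk (k + 1) N (fun n => max (f n) (g n)) := by
  have hp : (2 : ℕ) ^ k < 2 ^ (k + 1) := Nat.pow_lt_pow_right (by norm_num) (by omega)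
  have hp1 : 0 < (2 : ℕ) ^ k := by positivity
  have ht : ∀ n, n < N → (fun _ => 2 ^ k : ℕ → ℕ) n < 2 ^ (k + 1) := fun n _ => hp
  have hd : ∀ n, n < N → f n + 2 ^ k - g n < 2 ^ (k + 1) := fun n hn => by
    have := hf n hn
    rw [pow_succ]
    omega
  -- the top bits
  have hM : Nat.land (pk (k + 1) N (fun n => f n + 2 ^ k - g n)) (top k N) =
      pk (k + 1) N (fun n => 2 ^ k * if g n ≤ f n then 1 else 0) := by
    unfold top
    rw [pk_land hd ht]
    refine pk_congr fun n hn => ?_
    rw [land_top_digit (hd n hn)]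
    have := hg n hn
    by_cases h : g n ≤ f n
    · rw [if_pos h, if_pos (by omega), mul_one]
    · rw [if_neg h, if_neg (by omega), mul_zero]
  unfold maxp
  rw [← pk_diff fun n hn => (hg n hn).le]
  simp only
  rw [hM, shift_digit]
  rw [← pk_sub (f := fun n => 2 ^ k * if g n ≤ f n then 1 else 0)
    (g := fun n => if g n ≤ f n then 1 else 0) fun n _ => by split_ifs <;> omega]
  rw [← pk_sub (f := fun n => f n + 2 ^ k - g n)
    (g := fun n => 2 ^ k * if g n ≤ f n then 1 else 0) fun n hn => by
      have := hg n hn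
      split_ifs <;> omega]
  rw [pk_land (fun n hn => by
      have := hd n hn
      split_ifs <;> omega) fun n _ => by split_ifs <;> omega, ← pk_add]
  refine pk_congr fun n hn => ?_
  have h1 := hf n hn
  have h2 := hg n hn
  by_cases h : g n ≤ f n
  · rw [if_pos h, mul_one, show f n + 2 ^ k - g n - 2 ^ k = f n - g n by omega,
      land_mask (by omega), max_eq_left h]
    omega
  · rw [if_neg h, mul_zero, Nat.sub_zero, Nat.sub_zero, max_eq_right (by omega)]
    rw [show Nat.land (f n + 2 ^ k - g n) 0 = (f n + 2 ^ k - g n) &&& 0 from rfl, Nat.and_zero]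
    omega

/-! ### rectangular planes -/

/-- a plane with `M` rows of width `W` -/
theorem pk_rect (k M W : ℕ) (F : ℕ → ℕ → ℕ) :
    pk k (M * W) (fun n => F (n / W) (n % W)) = pk (k * W) M (fun a => pk k W (F a)) := by
  rcases Nat.eq_zero_or_pos W with hW | hW
  · subst hW
    simp [pk]
  · induction M with
    | zero => simp [pk]
    | succ M ih =>
      rw [pk_succ, ← ih]
      unfold pk
      rw [Nat.succ_mul, sum_range_add, sum_mul]
      congr 1
      refine sum_congr rfl fun s hs => ?_
      have hs' := mem_range.1 hs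
      have e1 : (M * W + s) / W = M := by
        rw [mul_comm, Nat.mul_add_div hW, Nat.div_eq_of_lt hs', add_zero]
      have e2 : (M * W + s) % W = s := by
        rw [mul_comm, Nat.mul_add_mod, Nat.mod_eq_of_lt hs']
      show F ((M * W + s) / W) ((M * W + s) % W) * _ = _
      rw [e1, e2]
      rw [show k * (M * W + s) = k * s + k * W * M by ring, pow_add]
      ring

/-- rank one: the product of a function of the row and a function of the column -/
theorem pk_rank_one (k M W : ℕ) (u v : ℕ → ℕ) :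
    pk k (M * W) (fun n => u (n / W) * v (n % W)) = pk (k * W) M u * pk k W v := by
  rw [pk_rect k M W (fun a s => u a * v s)]
  have : (fun a => pk k W (fun s => u a * v s)) = fun a => pk k W v * u a := by
    funext a
    rw [pk_smul, mul_comm]
  rw [this, pk_smul, mul_comm]

/-- diagonal: the product of a function of the row and a function of `column - row`, when the
second vanishes from `C` on and `C + M ≤ W + 1` -/
theorem pk_diag (k M W C : ℕ) (u v : ℕ → ℕ) (hC : C + M ≤ W + 1) (hv : ∀ c, C ≤ c → v c = 0) :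
    pk k (M * W) (fun n => if n / W ≤ n % W then u (n / W) * v (n % W - n / W) else 0) =
      pk (k * (W + 1)) M u * pk k C v := by
  rw [pk_rect k M W (fun a s => if a ≤ s then u a * v (s - a) else 0)]
  have key : ∀ a, a < M → pk k W (fun s => if a ≤ s then u a * v (s - a) else 0) =
      u a * 2 ^ (k * a) * pk k C v := by
    intro a ha
    obtain ⟨r, hr⟩ : ∃ r, W = a + C + r := ⟨W - a - C, by omega⟩
    unfold pk
    rw [hr, sum_range_add, sum_range_add]
    have e1 : ∑ x ∈ range a, (if a ≤ x then u a * v (x - a) else 0) * 2 ^ (k * x) = 0 :=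
      sum_eq_zero fun x hx => by
        rw [if_neg (by have := mem_range.1 hx; omega), zero_mul]
    have e2 : ∑ x ∈ range r, (if a ≤ a + C + x then u a * v (a + C + x - a) else 0) *
        2 ^ (k * (a + C + x)) = 0 :=
      sum_eq_zero fun x _ => by
        rw [hv (a + C + x - a) (by omega)]
        simp
    rw [e1, e2, zero_add, add_zero, mul_sum]
    refine sum_congr rfl fun x _ => ?_
    show (if a ≤ a + x then u a * v (a + x - a) else 0) * _ = _
    rw [if_pos (by omega), show a + x - a = x by omega, show k * (a + x) = k * a + k * x by ring,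
      pow_add]
    ring
  rw [pk_congr key]
  unfold pk
  rw [sum_mul]
  refine sum_congr rfl fun a _ => ?_
  rw [show k * (W + 1) * a = k * a + k * W * a by ring, pow_add]
  ring

/-! ### tables -/

/-- the plane of ones -/
def ones (k N : ℕ) : ℕ := (2 ^ (k * N) - 1) / (2 ^ k - 1)

theorem pk_ones_mul (k N : ℕ) : pk k N (fun _ => 1) * (2 ^ k - 1) = 2 ^ (k * N) - 1 := by
  induction N with
  | zero => simp [pk_zero]
  | succ N ih =>
    rw [pk_succ, add_mul, ih, one_mul, show k * (N + 1) = k * N + k by ring, pow_add]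
    have h1 : 0 < (2 : ℕ) ^ k := by positivity
    have h2 : 0 < (2 : ℕ) ^ (k * N) := by positivity
    have h3 : (2 : ℕ) ^ (k * N) ≤ 2 ^ (k * N) * 2 ^ k := Nat.le_mul_of_pos_right _ h1
    have h4 : (2 : ℕ) ^ (k * N) * (2 ^ k - 1) = 2 ^ (k * N) * 2 ^ k - 2 ^ (k * N) := by
      rw [Nat.mul_sub, mul_one]
    omega

theorem pk_ones {k : ℕ} (hk : 0 < k) (N : ℕ) : pk k N (fun _ => 1) = ones k N := by
  have h1 : 1 < 2 ^ k := Nat.one_lt_two_pow hk.ne'
  unfold ones
  rw [← pk_ones_mul, Nat.mul_div_cancel _ (by omega)]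

theorem top_eq (k N : ℕ) : top k N = 2 ^ k * ones (k + 1) N := by
  unfold top
  rw [pk_const, pk_ones (by omega)]

/-- digits -/
def dig (k t n : ℕ) : ℕ := t / 2 ^ (k * n) % 2 ^ k

theorem pk_dig {k N t : ℕ} (h : t < 2 ^ (k * N)) : pk k N (dig k t) = t := by
  induction N generalizing t with
  | zero =>
    rw [mul_zero, pow_zero] at h
    rw [pk_zero]
    omega
  | succ N ih =>
    have h0 : 0 < (2 : ℕ) ^ k := by positivity
    have h1 : t / 2 ^ k < 2 ^ (k * N) := by
      rw [show k * (N + 1) = k * N + k by ring, pow_add] at h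
      exact Nat.div_lt_of_lt_mul (by rw [mul_comm]; exact h)
    rw [pk_succ']
    have h2 : (fun n => dig k t (n + 1)) = dig k (t / 2 ^ k) := by
      funext n
      unfold dig
      rw [Nat.div_div_eq_div_mul, ← pow_add, show k * (n + 1) = k + k * n by ring]
    rw [h2, ih h1]
    unfold dig
    rw [mul_zero, pow_zero, Nat.div_one]
    have := Nat.mod_add_div t (2 ^ k)
    omega

theorem dig_lt (k t n : ℕ) : dig k t n < 2 ^ k := Nat.mod_lt _ (by positivity)

/-- the plane of a list -/
def hor (b : ℕ) : List ℕ → ℕ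
  | [] => 0
  | a :: l => Nat.add a (Nat.mul b (hor b l))

theorem hor_eq (k : ℕ) (l : List ℕ) : hor (2 ^ k) l = pk k l.length (fun n => l.getD n 0) := by
  induction l with
  | nil => simp [hor, pk_zero]
  | cons a l ih =>
    rw [List.length_cons, pk_succ']
    show a + 2 ^ k * hor (2 ^ k) l = _
    rw [ih]
    rfl

end Pool.Agent.Helper51.NE
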