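import Pool.Agent.Helper51.NE.Class

/-!
# The class check: soundness of the comparisons
-/

set_option autoImplicit false
set_option maxHeartbeats 400000

namespace Pool.Agent.Helper51.NE

open Pool.Agent.Helper56.NE

attribute [local irreducible] rid01 rid12 rid02 rid3 prod3 mxs pfull mup TT

theorem Idx.unique {g : GC} {a b c a' b' c' : ℕ} (h : Idx g a b c) (h' : Idx g a' b' c') :
    a = a' ∧ b = b' ∧ c = c' := by
  rcases h with ⟨_, _, _, _, _⟩ | ⟨_, _, _, _, _, _⟩ <;>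
    rcases h' with ⟨_, _, _, _, _⟩ | ⟨_, _, _, _, _, _⟩ <;> omega

/-- the digits `φ` bound the value of the states of the cell, at the coordinates `p`, `q` with `R` -/
def Bd (G : Geo) (c : CellD) (P : ℕ) (N : ℕ) (R : ℕ → ℕ → ℕ → ℕ → Prop) : Prop :=
  ∃ φ, Pl 13824 (2 ^ 26) P φ ∧ ∀ g x, c.Val g x → ∀ iw ix iy, Idx g iw ix iy → ∀ p q, p ≤ N → q ≤ N →
    R ix iy p q → 16809216 + x ≤ (φ (G.sw * iw + G.sx * p + G.sy * q) : ℤ)

theorem cell_bd {G : Geo} (hG : G.Ok) {c : CellD} (hc : c.ok = true) :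
    Bd G c (c.pl G) 23 (fun ix iy p q => p = ix ∧ q = iy) := by
  obtain ⟨φ, h1, h2⟩ := cell_pl hG hc
  refine ⟨φ, h1, fun g x hv iw ix iy hi p q _ _ hR => ?_⟩
  obtain ⟨a, b, d, h3, h4⟩ := h2 g x hv
  obtain ⟨rfl, rfl, rfl⟩ := h3.unique hi
  obtain ⟨rfl, rfl⟩ := hR
  exact h4

theorem F_bd {G : Geo} (hG : G.Ok) {c : CellD} (hc : c.ok = true) :
    Bd G c (c.F G) 23 (fun ix iy p q => ix ≤ p ∧ iy ≤ q) := by
  obtain ⟨φ, h1, h2⟩ := cell_bd hG hc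
  refine ⟨_, (h1.pfull (by norm_num) hG.sy0 hG.hy).pfull (by norm_num) hG.sx0 hG.hx,
    fun g x hv iw ix iy hi p q hp hq hR => ?_⟩
  have hl := hi.lt
  have h3 := h2 g x hv iw ix iy hi ix iy (by omega) (by omega) ⟨rfl, rfl⟩
  obtain ⟨d, hd⟩ := Nat.exists_eq_add_of_le hR.1
  obtain ⟨e, he⟩ := Nat.exists_eq_add_of_le hR.2
  obtain ⟨-, -, i2, -⟩ := hG.ix iw p q (by omega) (by omega) (by omega)
  obtain ⟨-, -, -, i3⟩ := hG.ix iw ix q (by omega) (by omega) (by omega)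
  have k1 := pfullF_ge (f := pfullF G.sy φ) (σ := G.sx) (n := G.sw * iw + G.sx * p + G.sy * q)
    (j := d) (by rw [i2]; omega)
  have k2 := pfullF_ge (f := φ) (σ := G.sy) (n := G.sw * iw + G.sx * ix + G.sy * q)
    (j := e) (by rw [i3]; omega)
  rw [show G.sw * iw + G.sx * p + G.sy * q - G.sx * d = G.sw * iw + G.sx * ix + G.sy * q by
    rw [hd, mul_add]; omega] at k1
  rw [show G.sw * iw + G.sx * ix + G.sy * q - G.sy * e = G.sw * iw + G.sx * ix + G.sy * iy by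
    rw [he, mul_add]; omega] at k2
  refine h3.trans ?_
  exact_mod_cast k2.trans k1

section

variable {G : Geo} (hG : G.Ok) {c : CellD} {P : ℕ} {R : ℕ → ℕ → ℕ → ℕ → Prop}

include hG

theorem Bd.upx (h : Bd G c P 23 R) : Bd G c (up1 G.sx P) 22 (fun ix iy p q => R ix iy (p + 1) q) := by
  obtain ⟨φ, h1, h2⟩ := h
  have hs : G.sx ≤ 13824 := by
    have := (hG.ix 0 1 0 (by norm_num) (by norm_num) (by norm_num)).1
    omega
  refine ⟨_, h1.shr (by norm_num) hs (by norm_num), fun g x hv iw ix iy hi p q hp hq hR => ?_⟩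
  have hl := hi.lt
  have h3 := h2 g x hv iw ix iy hi (p + 1) q (by omega) (by omega) hR
  have h4 := (hG.ix iw (p + 1) q (by omega) (by omega) (by omega)).1
  have e : G.sw * iw + G.sx * p + G.sy * q + G.sx = G.sw * iw + G.sx * (p + 1) + G.sy * q := by ring
  beta_reduce
  rw [e, if_pos h4]
  exact h3

theorem Bd.upy (h : Bd G c P 23 R) : Bd G c (up1 G.sy P) 22 (fun ix iy p q => R ix iy p (q + 1)) := by
  obtain ⟨φ, h1, h2⟩ := h
  have hs : G.sy ≤ 13824 := by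
    have := (hG.ix 0 0 1 (by norm_num) (by norm_num) (by norm_num)).1
    omega
  refine ⟨_, h1.shr (by norm_num) hs (by norm_num), fun g x hv iw ix iy hi p q hp hq hR => ?_⟩
  have hl := hi.lt
  have h3 := h2 g x hv iw ix iy hi p (q + 1) (by omega) (by omega) hR
  have h4 := (hG.ix iw p (q + 1) (by omega) (by omega) (by omega)).1
  have e : G.sw * iw + G.sx * p + G.sy * q + G.sy = G.sw * iw + G.sx * p + G.sy * (q + 1) := by ring
  beta_reduce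
  rw [e, if_pos h4]
  exact h3

theorem Bd.slx (h : Bd G c P 23 R) :
    Bd G c (sl G.sx G.mx P) 23 (fun ix iy _ q => R ix iy 23 q) := by
  obtain ⟨φ, h1, h2⟩ := h
  refine ⟨_, h1.sl (by norm_num) (by norm_num) hG.sx0 hG.hx hG.mx0,
    fun g x hv iw ix iy hi p q hp hq hR => ?_⟩
  have hl := hi.lt
  have h3 := h2 g x hv iw ix iy hi 23 q (by omega) (by omega) hR
  have h4 := (hG.ix iw 23 q (by omega) (by omega) (by omega)).1
  obtain ⟨-, -, i2, -⟩ := hG.ix iw p q (by omega) (by omega) (by omega)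
  have e : G.sw * iw + G.sx * p + G.sy * q - G.sx * p + 23 * G.sx =
      G.sw * iw + G.sx * 23 + G.sy * q := by
    rw [mul_comm 23]
    omega
  unfold slF
  rw [i2, e, if_pos h4]
  exact h3

theorem Bd.sly (h : Bd G c P 23 R) :
    Bd G c (sl G.sy G.my P) 23 (fun ix iy p _ => R ix iy p 23) := by
  obtain ⟨φ, h1, h2⟩ := h
  refine ⟨_, h1.sl (by norm_num) (by norm_num) hG.sy0 hG.hy hG.my0,
    fun g x hv iw ix iy hi p q hp hq hR => ?_⟩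
  have hl := hi.lt
  have h3 := h2 g x hv iw ix iy hi p 23 (by omega) (by omega) hR
  have h4 := (hG.ix iw p 23 (by omega) (by omega) (by omega)).1
  obtain ⟨-, -, -, i3⟩ := hG.ix iw p q (by omega) (by omega) (by omega)
  have e : G.sw * iw + G.sx * p + G.sy * q - G.sy * q + 23 * G.sy =
      G.sw * iw + G.sx * p + G.sy * 23 := by
    rw [mul_comm 23]
    omega
  unfold slF
  rw [i3, e, if_pos h4]
  exact h3

omit hG in
theorem Bd.imp {N N' : ℕ} {R' : ℕ → ℕ → ℕ → ℕ → Prop} (h : Bd G c P N R) (hN : N' ≤ N)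
    (hR : ∀ ix iy p q, ix ≤ 22 → iy ≤ 22 → R' ix iy p q → R ix iy p q) : Bd G c P N' R' := by
  obtain ⟨φ, h1, h2⟩ := h
  refine ⟨φ, h1, fun g x hv iw ix iy hi p q hp hq h3 => ?_⟩
  have hl := hi.lt
  exact h2 g x hv iw ix iy hi p q (by omega) (by omega) (hR _ _ _ _ hl.2.1 hl.2.2 h3)

variable (hc : c.ok = true)

include hc

theorem bdF : Bd G c (c.F G) 23 (fun ix iy p q => ix ≤ p ∧ iy ≤ q) := F_bd hG hc

theorem bdFx : Bd G c (up1 G.sx (c.F G)) 22 (fun ix iy p q => ix ≤ p + 1 ∧ iy ≤ q) :=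
  (F_bd hG hc).upx hG

theorem bdFy : Bd G c (up1 G.sy (c.F G)) 22 (fun ix iy p q => ix ≤ p ∧ iy ≤ q + 1) :=
  (F_bd hG hc).upy hG

theorem bdGX' : Bd G c (c.GX G) 23 (fun ix _ p _ => ix ≤ p) :=
  ((F_bd hG hc).sly hG).imp le_rfl fun _ _ _ _ _ h2 h => ⟨h, by omega⟩

theorem bdGY' : Bd G c (c.GY G) 23 (fun _ iy _ q => iy ≤ q) :=
  ((F_bd hG hc).slx hG).imp le_rfl fun _ _ _ _ h1 _ h => ⟨by omega, h⟩

theorem bdGX : Bd G c (c.GX G) 22 (fun ix _ p _ => ix ≤ p) :=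
  (bdGX' hG hc).imp (by norm_num) fun _ _ _ _ _ _ h => h

theorem bdGY : Bd G c (c.GY G) 22 (fun _ iy _ q => iy ≤ q) :=
  (bdGY' hG hc).imp (by norm_num) fun _ _ _ _ _ _ h => h

theorem bdGXx : Bd G c (up1 G.sx (c.GX G)) 22 (fun ix _ p _ => ix ≤ p + 1) := (bdGX' hG hc).upx hG

theorem bdGYy : Bd G c (up1 G.sy (c.GY G)) 22 (fun _ iy _ q => iy ≤ q + 1) := (bdGY' hG hc).upy hG

theorem bdH : Bd G c (c.H G) 22 (fun _ _ _ _ => True) :=
  ((bdGX' hG hc).slx hG).imp (by norm_num) fun _ _ _ _ h1 _ _ => by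
    beta_reduce
    omega

end

/-- the conclusion for three states -/
def Le3 (Mo : ℕ) (x0 x1 x2 : ℤ) : Prop := x0 + x1 + x2 ≤ (Mo : ℤ) - 3 * 16809216

theorem cmp3_sound {Mo : ℕ} (hMo : Mo < 201326592) {c0 c1 c2 : CellD} {A B C : ℕ}
    {R0 R1 R2 : ℕ → ℕ → ℕ → ℕ → Prop} (hA : Bd geo0 c0 A 22 R0) (hB : Bd geo1 c1 B 22 R1)
    (hC : Bd geo2 c2 C 22 R2) (h : cmp3 (cst 13824 Mo) A B C = true) {g0 g1 g2 : GC} {x0 x1 x2 : ℤ}
    (v0 : c0.Val g0 x0) (v1 : c1.Val g1 x1) (v2 : c2.Val g2 x2) {w0 a0 b0 w1 a1 b1 w2 a2 b2 : ℕ}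
    (i0 : Idx g0 w0 a0 b0) (i1 : Idx g1 w1 a1 b1) (i2 : Idx g2 w2 a2 b2) (r0 : R0 a0 b0 w1 w2)
    (r1 : R1 a1 b1 w2 w0) (r2 : R2 a2 b2 w0 w1) : Le3 Mo x0 x1 x2 := by
  obtain ⟨φ0, p0, k0⟩ := hA
  obtain ⟨φ1, p1, k1⟩ := hB
  obtain ⟨φ2, p2, k2⟩ := hC
  have l0 := i0.lt
  have l1 := i1.lt
  have l2 := i2.lt
  have j0 := k0 g0 x0 v0 w0 a0 b0 i0 w1 w2 l1.1 l2.1 r0
  have j1 := k1 g1 x1 v1 w1 a1 b1 i1 w2 w0 l2.1 l0.1 r1
  have j2 := k2 g2 x2 v2 w2 a2 b2 i2 w0 w1 l0.1 l1.1 r2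
  have hp := ((p0.add p1).add p2).le (g := fun _ => Mo) (B := 2 ^ 26 + 2 ^ 26 + 2 ^ 26)
    (Pl.cst (by norm_num; omega)) (by norm_num) h
  have e0 : geo0.sw * w0 + geo0.sx * w1 + geo0.sy * w2 = 576 * w0 + 24 * w1 + w2 := by
    show 576 * w0 + 24 * w1 + 1 * w2 = _
    ring
  have e1 : geo1.sw * w1 + geo1.sx * w2 + geo1.sy * w0 = 576 * w0 + 24 * w1 + w2 := by
    show 24 * w1 + 1 * w2 + 576 * w0 = _
    ring
  have e2 : geo2.sw * w2 + geo2.sx * w0 + geo2.sy * w1 = 576 * w0 + 24 * w1 + w2 := by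
    show 1 * w2 + 576 * w0 + 24 * w1 = _
    ring
  rw [e0] at j0
  rw [e1] at j1
  rw [e2] at j2
  have := hp (576 * w0 + 24 * w1 + w2) (by omega)
  unfold Le3
  omega

theorem pairT {e : ℤ} {g h : GC} {w a b w' a' b' : ℕ} (hg : Idx g w a b) (hh : Idx h w' a' b')
    (k : PairOK true e g h) : (e = 0 → a ≤ w') ∧ (e = 1 → a ≤ w' + 1) := by
  have k' : g.X + h.w ≤ 20 + e := k
  rcases hg with ⟨_, _, _, _, _⟩ | ⟨_, _, _, _, _, _⟩ <;>
    rcases hh with ⟨_, _, _, _, _⟩ | ⟨_, _, _, _, _, _⟩ <;>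
      constructor <;> intro he <;> omega

theorem pairF {e : ℤ} {g h : GC} {w a b w' a' b' : ℕ} (hg : Idx g w a b) (hh : Idx h w' a' b')
    (k : PairOK false e g h) : (e = 0 → b' ≤ w) ∧ (e = 1 → b' ≤ w + 1) := by
  have k' : h.Y + g.w ≤ 20 + e := k
  rcases hg with ⟨_, _, _, _, _⟩ | ⟨_, _, _, _, _, _⟩ <;>
    rcases hh with ⟨_, _, _, _, _⟩ | ⟨_, _, _, _, _, _⟩ <;>
      constructor <;> intro he <;> omega

theorem Val.idx {c : CellD} {g : GC} {x : ℤ} (h : c.Val g x) : ∃ w a b, Idx g w a b := by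
  rcases h with ⟨t, _, rfl, _⟩ | ⟨v, _, hin⟩
  · exact ⟨22, 0, 0, Or.inr ⟨rfl, rfl, rfl, rfl, rfl, rfl⟩⟩
  · obtain ⟨w, X, Y, D, e1, e2, e3, hw, hD, hs, -⟩ := hin.nat
    exact ⟨20 - w, min X 22, min Y 22, Or.inl ⟨by omega, by omega, by omega, by omega, by omega⟩⟩

/-- **Soundness of the class check.** -/
theorem class_sound {Mo : ℕ} {c0 c1 c2 : CellD} (h : classOK Mo c0 c1 c2 = true)
    (o0 o1 o2 : Bool) {g0 g1 g2 : GC} {x0 x1 x2 : ℤ} (v0 : c0.Val g0 x0) (v1 : c1.Val g1 x1)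
    (v2 : c2.Val g2 x2) (ht : Tri o0 o1 o2 g0 g1 g2) :
    x0 + x1 + x2 ≤ (Mo : ℤ) - 3 * 16809216 := by
  unfold classOK at h
  simp only [Bool.and_eq_true, Nat.ble_eq] at h
  obtain ⟨⟨⟨k0, k1⟩, k2, kM⟩, kt⟩ := h
  unfold tri8 at kt
  simp only [Bool.and_eq_true] at kt
  obtain ⟨⟨⟨t1, t2⟩, t3, t4⟩, ⟨t5, t6⟩, t7, t8⟩ := kt
  have hMo : Mo < 201326592 := by omega
  obtain ⟨w0, a0, b0, i0⟩ := Val.idx v0
  obtain ⟨w1, a1, b1, i1⟩ := Val.idx v1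
  obtain ⟨w2, a2, b2, i2⟩ := Val.idx v2
  obtain ⟨q0, q1, q2⟩ := ht
  have G0 := geo0_ok
  have G1 := geo1_ok
  have G2 := geo2_ok
  cases o0 <;> cases o1 <;> cases o2
  · -- FFF
    have e0 := (pairF i0 i1 q0).1 rfl
    have e1 := (pairF i1 i2 q1).2 rfl
    have e2 := (pairF i2 i0 q2).1 rfl
    exact cmp3_sound hMo (bdGY G0 k0) (bdGY G1 k1) (bdGYy G2 k2) t2 v0 v1 v2 i0 i1 i2 e2 e0 e1
  · -- FFT
    have e0 := (pairF i0 i1 q0).1 rfl
    have e1 := (pairF i1 i2 q1).1 rfl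
    have e2 := (pairT i2 i0 q2).2 rfl
    exact cmp3_sound hMo (bdH G0 k0) (bdGY G1 k1) (bdFx G2 k2) t7 v0 v1 v2 i0 i1 i2 trivial e0
      ⟨e2, e1⟩
  · -- FTF
    have e0 := (pairF i0 i1 q0).1 rfl
    have e1 := (pairT i1 i2 q1).2 rfl
    have e2 := (pairF i2 i0 q2).1 rfl
    exact cmp3_sound hMo (bdGY G0 k0) (bdFx G1 k1) (bdH G2 k2) t8 v0 v1 v2 i0 i1 i2 e2 ⟨e1, e0⟩
      trivial
  · -- FTT
    have e0 := (pairF i0 i1 q0).2 rfl
    have e1 := (pairT i1 i2 q1).1 rfl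
    have e2 := (pairT i2 i0 q2).1 rfl
    exact cmp3_sound hMo (bdH G0 k0) (bdFy G1 k1) (bdGX G2 k2) t6 v0 v1 v2 i0 i1 i2 trivial ⟨e1, e0⟩
      e2
  · -- TFF
    have e0 := (pairT i0 i1 q0).2 rfl
    have e1 := (pairF i1 i2 q1).1 rfl
    have e2 := (pairF i2 i0 q2).1 rfl
    exact cmp3_sound hMo (bdFx G0 k0) (bdH G1 k1) (bdGY G2 k2) t4 v0 v1 v2 i0 i1 i2 ⟨e0, e2⟩ trivial
      e1
  · -- TFT
    have e0 := (pairT i0 i1 q0).1 rfl
    have e1 := (pairF i1 i2 q1).2 rfl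
    have e2 := (pairT i2 i0 q2).1 rfl
    exact cmp3_sound hMo (bdGX G0 k0) (bdH G1 k1) (bdFy G2 k2) t5 v0 v1 v2 i0 i1 i2 e0 trivial
      ⟨e2, e1⟩
  · -- TTF
    have e0 := (pairT i0 i1 q0).1 rfl
    have e1 := (pairT i1 i2 q1).1 rfl
    have e2 := (pairF i2 i0 q2).2 rfl
    exact cmp3_sound hMo (bdFy G0 k0) (bdGX G1 k1) (bdH G2 k2) t3 v0 v1 v2 i0 i1 i2 ⟨e0, e2⟩ e1
      trivial
  · -- TTT
    have e0 := (pairT i0 i1 q0).1 rfl
    have e1 := (pairT i1 i2 q1).2 rfl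
    have e2 := (pairT i2 i0 q2).1 rfl
    exact cmp3_sound hMo (bdGX G0 k0) (bdGXx G1 k1) (bdGX G2 k2) t1 v0 v1 v2 i0 i1 i2 e0 e1 e2

/-! ### the main alternative -/

theorem lsM_getD (mo bw : ℕ) {i : ℕ} (h : i ≤ 20) : (lsM mo bw).getD i 0 = mo + bw * (20 - i) := by
  interval_cases i <;> rfl

theorem lsM_mem {mo bw x : ℕ} (h : x ∈ lsM mo bw) : x ≤ mo + 20 * bw := by
  have e : lsM mo bw = wL.map (fun w => mo + bw * w) ++ [mo, mo, mo] := rfl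
  rw [e, List.mem_append] at h
  rcases h with h | h
  · obtain ⟨w, hw, rfl⟩ := List.mem_map.1 h
    have := wL_le w hw
    nlinarith
  · simp only [List.mem_cons, List.not_mem_nil, or_false, or_self] at h
    omega

theorem main1_sound {G : Geo} (hG : G.Ok) {mo bw : ℕ} {c : CellD} (h : mainOK1 G mo bw c = true)
    {g : GC} {x : ℤ} (v : c.Val g x) : x - bw * max g.w 0 ≤ (mo : ℤ) - 16809216 := by
  unfold mainOK1 at h
  simp only [Bool.and_eq_true, Nat.ble_eq] at h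
  obtain ⟨⟨k, kM⟩, kt⟩ := h
  have kM' : mo + 20 * bw ≤ 67108863 := kM
  obtain ⟨φ, p, hφ⟩ := cell_bd hG k
  obtain ⟨w, a, b, i⟩ := Val.idx v
  have l := i.lt
  have j := hφ g x v w a b i a b (by omega) (by omega) ⟨rfl, rfl⟩
  have hT : Pl 13824 (2 ^ 26) (tabL G.sw G.mw (lsM mo bw)) (fun n => (lsM mo bw).getD (co G.sw n) 0) :=
    Pl.tab hG.sw0 hG.hw (by show 24 ≤ 24; exact le_rfl)
      (fun x hx => by have := lsM_mem hx; norm_num; omega) (by norm_num)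
  have hp := p.le hT (by norm_num) kt
  obtain ⟨i1, i2, -, -⟩ := hG.ix w a b (by omega) (by omega) (by omega)
  have hn := hp _ i1
  beta_reduce at hn
  rw [i2] at hn
  rcases i with ⟨h1, h2, h3, h4, h5⟩ | ⟨h1, h2, h3, h4, h5, h6⟩
  · rw [lsM_getD mo bw (by omega)] at hn
    have e : max g.w 0 = ((20 - w : ℕ) : ℤ) := by omega
    rw [e]
    have hn' : (φ (G.sw * w + G.sx * a + G.sy * b) : ℤ) ≤ mo + bw * ((20 - w : ℕ) : ℤ) := by
      exact_mod_cast hn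
    linarith
  · have e : max g.w 0 = 0 := by omega
    rw [e]
    subst h4
    have e2 : (lsM mo bw).getD 22 0 = mo := rfl
    rw [e2] at hn
    have hn' : (φ (G.sw * 22 + G.sx * a + G.sy * b) : ℤ) ≤ mo := by exact_mod_cast hn
    linarith

/-- **Soundness of the main check.** -/
theorem main_sound {mo0 mo1 mo2 bw : ℕ} {c0 c1 c2 : CellD} (h : mainOK mo0 mo1 mo2 bw c0 c1 c2 = true) :
    (∀ g x, c0.Val g x → x - bw * max g.w 0 ≤ (mo0 : ℤ) - 16809216) ∧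
    (∀ g x, c1.Val g x → x - bw * max g.w 0 ≤ (mo1 : ℤ) - 16809216) ∧
    (∀ g x, c2.Val g x → x - bw * max g.w 0 ≤ (mo2 : ℤ) - 16809216) := by
  unfold mainOK at h
  simp only [Bool.and_eq_true] at h
  obtain ⟨k0, k1, k2⟩ := h
  exact ⟨fun g x v => main1_sound geo0_ok k0 v, fun g x v => main1_sound geo1_ok k1 v,
    fun g x v => main1_sound geo2_ok k2 v⟩

end Pool.Agent.Helper51.NE
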