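import Pool.Agent.Helper51.NE.ClassB

/-!
# The class check: soundness
-/

set_option autoImplicit false
set_option maxHeartbeats 400000

namespace Pool.Agent.Helper51.NE

open Pool.Agent.Helper56.NE

attribute [local irreducible] rid01 rid12 rid02 rid3 prod3 mxs pfull sl mup TT

/-- the coordinates of a grid cell -/
def Idx (g : GC) (iw ix iy : ℕ) : Prop :=
  (0 ≤ g.w ∧ g.w ≤ 20 ∧ (iw : ℤ) = 20 - g.w ∧ (ix : ℤ) = min g.X 22 ∧ (iy : ℤ) = min g.Y 22) ∨
    (g.w = -20 ∧ g.X = 0 ∧ g.Y = 0 ∧ iw = 22 ∧ ix = 0 ∧ iy = 0)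

theorem Idx.lt {g : GC} {iw ix iy : ℕ} (h : Idx g iw ix iy) : iw ≤ 22 ∧ ix ≤ 22 ∧ iy ≤ 22 := by
  rcases h with ⟨_, _, _, _, _⟩ | ⟨_, _, _, _, _, _⟩ <;> omega

/-! ### the absent state -/

theorem pA_pl {G : Geo} (hG : G.Ok) {c : CellD} (hc : c.ok = true) :
    ∃ φ, Pl 13824 (2 ^ 26) (c.pA G) φ ∧
      ∀ t, c.ab = some t → 16809216 + (vof t.1 (-20) + vof t.2.1 0 + vof t.2.2.1 0 + vof t.2.2.2 40) ≤
        (φ (G.sw * 22) : ℤ) := by
  unfold CellD.ok at hc
  rw [Bool.and_eq_true] at hc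
  have hb := hc.2
  unfold CellD.pA
  rcases hab : c.ab with _ | t
  · refine ⟨fun _ => 0, ⟨(pk_zero_of fun _ _ => rfl).symm, fun _ _ => by norm_num⟩,
      fun t ht => absurd ht (by simp)⟩
  · rw [hab] at hb
    have hb' : Bool.and (Bool.and (Nat.ble (t.1.getD 0 0) 8388607) (Nat.ble (t.2.1.getD 20 0) 8388607))
        (Bool.and (Nat.ble (t.2.2.1.getD 20 0) 8388607) (Nat.ble (t.2.2.2.getD 60 0) 8388607)) = true := hb
    simp only [Bool.and_eq_true, Nat.ble_eq] at hb'
    obtain ⟨⟨b1, b2⟩, b3, b4⟩ := hb'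
    have hlt : G.sw * 22 < 13824 := by
      have := (hG.ix 22 0 0 (by norm_num) (by norm_num) (by norm_num)).1
      omega
    refine ⟨fun n => if n = G.sw * 22 then (t.1.getD 0 0 + t.2.1.getD 20 0) +
      ((t.2.2.1.getD 20 0 + t.2.2.2.getD 60 0) + 32000) else 0, ⟨?_, fun n _ => ?_⟩, ?_⟩
    · show Nat.shiftLeft ((t.1.getD 0 0 + t.2.1.getD 20 0) +
        ((t.2.2.1.getD 20 0 + t.2.2.2.getD 60 0) + 32000)) (29 * (22 * G.sw)) = _
      generalize (t.1.getD 0 0 + t.2.1.getD 20 0) +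
        ((t.2.2.1.getD 20 0 + t.2.2.2.getD 60 0) + 32000) = a
      have h1 := pk_shl 29 1 (22 * G.sw) (fun _ => a)
      rw [pk_one] at h1
      have h0 : Nat.shiftLeft a (29 * (22 * G.sw)) = a * 2 ^ (29 * (22 * G.sw)) :=
        Nat.shiftLeft_eq _ _
      rw [h0, h1, pk_ext (N := 22 * G.sw + 1) (M := 13824) (by omega) fun n h2 _ => by
        rw [if_neg (by omega)]]
      refine pk_congr fun n hn => ?_
      by_cases h2 : n = G.sw * 22
      · rw [if_pos (by omega), if_pos h2]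
      · rw [if_neg (by omega), if_neg h2]
    · beta_reduce
      split_ifs
      · omega
      · norm_num
    · intro t' ht'
      rw [Option.some.injEq] at ht'
      subst ht'
      beta_reduce
      rw [if_pos rfl]
      unfold vof
      rw [show ((-20 : ℤ) + 20).toNat = 0 by decide, show ((0 : ℤ) + 20).toNat = 20 by decide,
        show ((40 : ℤ) + 20).toNat = 60 by decide]
      push_cast
      omega

theorem ok_mem {c : CellD} (hc : c.ok = true) : ∀ v ∈ c.pv, v.ok = true := by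
  unfold CellD.ok at hc
  rw [Bool.and_eq_true] at hc
  have h := hc.1
  generalize c.pv = l at h
  induction l with
  | nil => intro v hv; simp at hv
  | cons a l ih =>
    have h' : Bool.and a.ok (List.rec (motive := fun _ => Bool) true
      (fun (v : VarP) _ ih => Bool.and v.ok ih) l) = true := h
    rw [Bool.and_eq_true] at h'
    intro v hv
    rcases List.mem_cons.1 hv with rfl | hv
    · exact h'.1
    · exact ih h'.2 v hv

theorem mask_pl {B P σ m : ℕ} {f : ℕ → ℕ} (h : Pl 13824 B P f) (hB : B ≤ 2 ^ 28) (hB0 : 0 < B)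
    (hσ : 0 < σ) (hm : m * 24 * σ = 13824) :
    Pl 13824 B (Nat.land P (mup σ m 22)) (fun n => if 22 ≤ co σ n then f n else 0) := by
  refine ⟨?_, fun n hn => ?_⟩
  · rw [h.1, mup_eq hσ (by norm_num), hm]
    exact mask_land (p := fun n => 22 ≤ co σ n) (hB.trans (by norm_num)) h.2
  · beta_reduce
    split_ifs
    · exact h.2 n hn
    · exact hB0

/-- **The plane of a cell.** -/
theorem cell_pl {G : Geo} (hG : G.Ok) {c : CellD} (hc : c.ok = true) :
    ∃ φ, Pl 13824 (2 ^ 26) (c.pl G) φ ∧ ∀ g x, c.Val g x → ∃ iw ix iy, Idx g iw ix iy ∧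
      16809216 + x ≤ (φ (G.sw * iw + G.sx * ix + G.sy * iy) : ℤ) := by
  have hv := ok_mem hc
  obtain ⟨φL, pL, hL⟩ := mxs_pl (f := fun v => v.pL G)
    (F := fun v => rawF G xL yL qL qL v.lw v.lx v.ly v.ld) fun v h => pL_pl hG (hv v h)
  obtain ⟨φX, pX, hX⟩ := mxs_pl (f := fun v => v.pX G)
    (F := fun v => rawF G xH yL [] qL v.lw v.hx v.ly v.hd) fun v h => pX_pl hG (hv v h)
  obtain ⟨φY, pY, hY⟩ := mxs_pl (f := fun v => v.pY G)
    (F := fun v => rawF G xL yH qL [] v.lw v.lx v.hy v.hd) fun v h => pY_pl hG (hv v h)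
  obtain ⟨φA, pA, hA⟩ := pA_pl hG hc
  have hB : 2 ^ 26 ≤ 2 ^ 28 := by norm_num
  have qX := mask_pl (pX.pfull hB hG.sx0 hG.hx) hB (by norm_num) hG.sx0 hG.hx
  have qY := mask_pl (pY.pfull hB hG.sy0 hG.hy) hB (by norm_num) hG.sy0 hG.hy
  refine ⟨_, (pL.max pA hB).max (qX.max qY hB) hB, fun g x h => ?_⟩
  rcases h with ⟨t, ht, rfl, rfl⟩ | ⟨v, hvm, hin⟩
  · refine ⟨22, 0, 0, Or.inr ⟨rfl, rfl, rfl, rfl, rfl, rfl⟩, ?_⟩
    have h1 := hA t ht
    rw [mul_zero, mul_zero, add_zero, add_zero]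
    refine h1.trans ?_
    exact_mod_cast (le_max_right _ _).trans (le_max_left _ _)
  · obtain ⟨w, X, Y, D, e1, e2, e3, hw, hD, hs, bw, bX, bY, bD, hx⟩ := hin.nat
    rw [hx]
    have hvo := hv v hvm
    rcases le_or_gt X 21 with hX1 | hX1
    · rcases le_or_gt Y 21 with hY1 | hY1
      · refine ⟨20 - w, X, Y, Or.inl ⟨by omega, by omega, by omega, by omega, by omega⟩, ?_⟩
        have h1 := hL v hvm (G.sw * (20 - w) + G.sx * X + G.sy * Y)
        rw [pL_dg hG hvo hw hX1 hY1 hD hs bw bX bY bD] at h1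
        exact_mod_cast h1.trans ((le_max_left _ _).trans (le_max_left _ _))
      · refine ⟨20 - w, X, 22, Or.inl ⟨by omega, by omega, by omega, by omega, by omega⟩, ?_⟩
        have h1 := hY v hvm (G.sw * (20 - w) + G.sx * X + G.sy * (Y - 22))
        rw [pY_dg hG hvo hw hY1 hs bw bX bY bD] at h1
        obtain ⟨-, -, -, i3⟩ := hG.ix (20 - w) X 22 (by omega) (by omega) (by omega)
        have h2 := pfullF_ge (f := φY) (σ := G.sy) (n := G.sw * (20 - w) + G.sx * X + G.sy * 22)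
          (j := 22 - (Y - 22)) (by rw [i3]; omega)
        rw [show G.sw * (20 - w) + G.sx * X + G.sy * 22 - G.sy * (22 - (Y - 22)) =
          G.sw * (20 - w) + G.sx * X + G.sy * (Y - 22) by
            obtain ⟨d, hd⟩ : ∃ d, 22 = (Y - 22) + d := ⟨22 - (Y - 22), by omega⟩
            have : G.sy * 22 = G.sy * (Y - 22) + G.sy * d := by
              rw [← mul_add, ← hd]
            rw [show 22 - (Y - 22) = d by omega]
            omega] at h2
        have h3 := h1.trans h2
        refine le_trans (b := ((if 22 ≤ co G.sy (G.sw * (20 - w) + G.sx * X + G.sy * 22) then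
          pfullF G.sy φY (G.sw * (20 - w) + G.sx * X + G.sy * 22) else 0 : ℕ) : ℤ)) ?_ ?_
        · rw [i3, if_pos le_rfl]
          exact_mod_cast h3
        · exact_mod_cast (le_max_right _ _).trans (le_max_right _ _)
    · refine ⟨20 - w, 22, Y, Or.inl ⟨by omega, by omega, by omega, by omega, by omega⟩, ?_⟩
      have h1 := hX v hvm (G.sw * (20 - w) + G.sx * (X - 22) + G.sy * Y)
      rw [pX_dg hG hvo hw hX1 hs bw bX bY bD] at h1
      obtain ⟨-, -, i2, -⟩ := hG.ix (20 - w) 22 Y (by omega) (by omega) (by omega)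
      have h2 := pfullF_ge (f := φX) (σ := G.sx) (n := G.sw * (20 - w) + G.sx * 22 + G.sy * Y)
        (j := 22 - (X - 22)) (by rw [i2]; omega)
      rw [show G.sw * (20 - w) + G.sx * 22 + G.sy * Y - G.sx * (22 - (X - 22)) =
        G.sw * (20 - w) + G.sx * (X - 22) + G.sy * Y by
          obtain ⟨d, hd⟩ : ∃ d, 22 = (X - 22) + d := ⟨22 - (X - 22), by omega⟩
          have : G.sx * 22 = G.sx * (X - 22) + G.sx * d := by
            rw [← mul_add, ← hd]
          rw [show 22 - (X - 22) = d by omega]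
          omega] at h2
      have h3 := h1.trans h2
      refine le_trans (b := ((if 22 ≤ co G.sx (G.sw * (20 - w) + G.sx * 22 + G.sy * Y) then
        pfullF G.sx φX (G.sw * (20 - w) + G.sx * 22 + G.sy * Y) else 0 : ℕ) : ℤ)) ?_ ?_
      · rw [i2, if_pos le_rfl]
        exact_mod_cast h3
      · exact_mod_cast (le_max_left _ _).trans (le_max_right _ _)

end Pool.Agent.Helper51.NE
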