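import Pool.Agent.Helper51.NE.ClassDef
import Pool.Agent.Helper56.NE.ClassGrid

/-!
# The class check: the digits
-/

set_option autoImplicit false
set_option maxHeartbeats 400000

namespace Pool.Agent.Helper51.NE

open Pool.Agent.Helper56.NE

/-! ### lists -/

theorem clp_nil (lo hi i : ℕ) : clp lo hi [] i = [] := rfl

theorem clp_cons (lo hi a i : ℕ) (l : List ℕ) : clp lo hi (a :: l) i =
    (bif Bool.and (Nat.ble lo i) (Nat.ble i hi) then a else 0) :: clp lo hi l (i + 1) := rfl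

theorem clp_length (lo hi : ℕ) (l : List ℕ) (i : ℕ) : (clp lo hi l i).length = l.length := by
  induction l generalizing i with
  | nil => rfl
  | cons a l ih => rw [clp_cons, List.length_cons, List.length_cons, ih]

theorem clp_getD {lo hi : ℕ} {l : List ℕ} {i j : ℕ} (h1 : lo ≤ i + j) (h2 : i + j ≤ hi) :
    (clp lo hi l i).getD j 0 = l.getD j 0 := by
  induction l generalizing i j with
  | nil => rfl
  | cons a l ih =>
    rw [clp_cons]
    cases j with
    | zero =>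
      rw [add_zero] at h1 h2
      show (bif Bool.and (Nat.ble lo i) (Nat.ble i hi) then a else 0) = a
      rw [Nat.ble_eq_true_of_le h1, Nat.ble_eq_true_of_le h2]
      rfl
    | succ j =>
      rw [List.getD_cons_succ, List.getD_cons_succ]
      exact ih (by omega) (by omega)

theorem drop_getD (l : List ℕ) (a j : ℕ) : (l.drop a).getD j 0 = l.getD (a + j) 0 := by
  simp only [List.getD_eq_getElem?_getD, List.getElem?_drop]

theorem take_getD {l : List ℕ} {b j : ℕ} (h : j < b) : (l.take b).getD j 0 = l.getD j 0 := by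
  simp only [List.getD_eq_getElem?_getD, List.getElem?_take, if_pos h]

theorem rev_getD {l : List ℕ} {N i : ℕ} (hl : l.length = N) (h : i < N) :
    l.reverse.getD i 0 = l.getD (N - 1 - i) 0 := by
  subst hl
  simp only [List.getD_eq_getElem?_getD]
  rw [List.getElem?_reverse h]

theorem small_iff {l : List ℕ} : small l = true ↔ ∀ x ∈ l, x ≤ 8388607 := by
  induction l with
  | nil => simp [small]
  | cons a l ih =>
    have e : small (a :: l) = Bool.and (Nat.ble a 8388607) (small l) := rfl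
    rw [e]
    simp [ih]

/-! ### the fixed lists -/

theorem wL_getD : ∀ i, i ≤ 20 → wL.getD i 0 = 20 - i := by decide
theorem xL_getD : ∀ i, i ≤ 21 → xL.getD i 0 = 12 * i := by decide
theorem yL_getD : ∀ i, i ≤ 21 → yL.getD i 0 = i := by decide
theorem xH_getD : ∀ i, i ≤ 18 → xH.getD i 0 = 12 * (22 + i) := by decide
theorem yH_getD : ∀ i, i ≤ 18 → yH.getD i 0 = 22 + i := by decide
theorem qL_getD : ∀ i, i ≤ 47 → qL.getD i 0 = 4 * (20 - i) ^ 3 := by decide
theorem cL_getD : ∀ i, i ≤ 20 → cL.getD i 0 = 32000 - 4 * (20 - i) ^ 3 := by decide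

theorem wL_le : ∀ x ∈ wL, x ≤ 20 := by decide
theorem xL_le : ∀ x ∈ xL, x ≤ 480 := by decide
theorem xH_le : ∀ x ∈ xH, x ≤ 480 := by decide
theorem yL_le : ∀ x ∈ yL, x ≤ 40 := by decide
theorem yH_le : ∀ x ∈ yH, x ≤ 40 := by decide
theorem qL_le : ∀ x ∈ qL, x ≤ 32000 := by decide
theorem cL_le : ∀ x ∈ cL, x ≤ 32000 := by decide

theorem getD_le {B : ℕ} {l : List ℕ} (h : ∀ x ∈ l, x ≤ B) (i : ℕ) : l.getD i 0 ≤ B :=
  Nat.lt_succ_iff.1 (getD_lt (fun x hx => Nat.lt_succ_iff.2 (h x hx)) (Nat.succ_pos B) i)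

/-! ### the axes -/

structure GOk (sw mw sx mx sy my : ℕ) (pr : List ℕ → List ℕ → List ℕ → ℕ)
    (rx ry : List ℕ → ℕ) : Prop where
  sw0 : 0 < sw
  sx0 : 0 < sx
  sy0 : 0 < sy
  mx0 : 0 < mx
  my0 : 0 < my
  hw : mw * 24 * sw = 13824
  hx : mx * 24 * sx = 13824
  hy : my * 24 * sy = 13824
  pr : ∀ w x y : List ℕ, w.length ≤ 24 → x.length ≤ 24 → y.length ≤ 24 →
    pr w x y = pk 29 13824
      (fun n => w.getD (co sw n) 0 * x.getD (co sx n) 0 * y.getD (co sy n) 0)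
  rx : ∀ l : List ℕ, l.length ≤ 48 → (∀ x ∈ l, x < 2 ^ 29) →
    rx l = pk 29 13824 (fun n => l.getD (co sw n + co sx n) 0)
  ry : ∀ l : List ℕ, l.length ≤ 48 → (∀ x ∈ l, x < 2 ^ 29) →
    ry l = pk 29 13824 (fun n => l.getD (co sw n + co sy n) 0)
  r3 : ∀ l : List ℕ, l.length ≤ 72 → (∀ x ∈ l, x < 2 ^ 29) →
    rid3 l = pk 29 13824 (fun n => l.getD (co sw n + co sx n + co sy n) 0)
  ix : ∀ i x y, i < 24 → x < 24 → y < 24 → sw * i + sx * x + sy * y < 13824 ∧
    co sw (sw * i + sx * x + sy * y) = i ∧ co sx (sw * i + sx * x + sy * y) = x ∧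
    co sy (sw * i + sx * x + sy * y) = y

def Geo.Ok (G : Geo) : Prop := GOk G.sw G.mw G.sx G.mx G.sy G.my G.pr G.rx G.ry

theorem co_eqs {n : ℕ} (h : n < 13824) :
    n / 24 / 24 = co 576 n ∧ n / 24 % 24 = co 24 n ∧ n % 24 = co 1 n := by
  unfold co
  omega

theorem prod3_co {u v w : List ℕ} (hu : u.length ≤ 24) (hv : v.length ≤ 24) (hw : w.length ≤ 24) :
    prod3 u v w = pk 29 13824
      (fun n => u.getD (co 576 n) 0 * v.getD (co 24 n) 0 * w.getD (co 1 n) 0) := by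
  refine (prod3_eq hu hv hw).trans (pk_congr fun n hn => ?_)
  obtain ⟨h1, h2, h3⟩ := co_eqs hn
  rw [h1, h2, h3]

theorem rid3_co {l : List ℕ} (hl : l.length ≤ 72) (hb : ∀ x ∈ l, x < 2 ^ 29) :
    rid3 l = pk 29 13824 (fun n => l.getD (co 576 n + co 24 n + co 1 n) 0) := by
  refine (rid3_eq hl hb).trans (pk_congr fun n hn => ?_)
  obtain ⟨h1, h2, h3⟩ := co_eqs hn
  rw [h1, h2, h3]

theorem rid01_co {l : List ℕ} (hl : l.length ≤ 48) (hb : ∀ x ∈ l, x < 2 ^ 29) :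
    rid01 l = pk 29 13824 (fun n => l.getD (co 576 n + co 24 n) 0) := by
  refine (rid01_eq hl hb).trans (pk_congr fun n hn => ?_)
  obtain ⟨h1, h2, h3⟩ := co_eqs hn
  rw [h1, h2]

theorem rid12_co {l : List ℕ} (hl : l.length ≤ 48) (hb : ∀ x ∈ l, x < 2 ^ 29) :
    rid12 l = pk 29 13824 (fun n => l.getD (co 24 n + co 1 n) 0) := by
  refine (rid12_eq hl hb).trans (pk_congr fun n hn => ?_)
  obtain ⟨h1, h2, h3⟩ := co_eqs hn
  rw [h2, h3]

theorem rid02_co {l : List ℕ} (hl : l.length ≤ 48) (hb : ∀ x ∈ l, x < 2 ^ 29) :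
    rid02 l = pk 29 13824 (fun n => l.getD (co 576 n + co 1 n) 0) := by
  refine (rid02_eq hl hb).trans (pk_congr fun n hn => ?_)
  obtain ⟨h1, h2, h3⟩ := co_eqs hn
  rw [h1, h3]

attribute [local irreducible] rid01 rid12 rid02 rid3 prod3

theorem geo0_ok' : GOk 576 1 24 24 1 576 (fun w x y => prod3 w x y) rid01 rid02 := by
  refine ⟨by decide, by decide, by decide, by decide, by decide, by decide, by decide, by decide,
    fun w x y h1 h2 h3 => prod3_co h1 h2 h3, fun l h1 h2 => rid01_co h1 h2,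
    fun l h1 h2 => rid02_co h1 h2, fun l h1 h2 => rid3_co h1 h2, fun i x y h1 h2 h3 => ?_⟩
  unfold co
  omega

theorem geo1_ok' : GOk 24 24 1 576 576 1 (fun w x y => prod3 y w x) rid12 rid01 := by
  refine ⟨by decide, by decide, by decide, by decide, by decide, by decide, by decide, by decide,
    fun w x y h1 h2 h3 => ?_, fun l h1 h2 => rid12_co h1 h2, fun l h1 h2 => ?_,
    fun l h1 h2 => ?_, fun i x y h1 h2 h3 => ?_⟩
  · exact (prod3_co h3 h1 h2).trans (pk_congr fun n _ => by ring)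
  · exact (rid01_co h1 h2).trans (pk_congr fun n _ => by rw [add_comm])
  · exact (rid3_co h1 h2).trans (pk_congr fun n _ => by
      rw [show co 576 n + co 24 n + co 1 n = co 24 n + co 1 n + co 576 n by ring])
  · unfold co
    omega

theorem geo2_ok' : GOk 1 576 576 1 24 24 (fun w x y => prod3 x y w) rid02 rid12 := by
  refine ⟨by decide, by decide, by decide, by decide, by decide, by decide, by decide, by decide,
    fun w x y h1 h2 h3 => ?_, fun l h1 h2 => ?_, fun l h1 h2 => ?_,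
    fun l h1 h2 => ?_, fun i x y h1 h2 h3 => ?_⟩
  · exact (prod3_co h2 h3 h1).trans (pk_congr fun n _ => by ring)
  · exact (rid02_co h1 h2).trans (pk_congr fun n _ => by rw [add_comm])
  · exact (rid12_co h1 h2).trans (pk_congr fun n _ => by rw [add_comm])
  · exact (rid3_co h1 h2).trans (pk_congr fun n _ => by
      rw [show co 576 n + co 24 n + co 1 n = co 1 n + co 576 n + co 24 n by ring])
  · unfold co
    omega

theorem geo0_ok : geo0.Ok := by
  unfold Geo.Ok geo0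
  exact geo0_ok'

theorem geo1_ok : geo1.Ok := by
  unfold Geo.Ok geo1
  exact geo1_ok'

theorem geo2_ok : geo2.Ok := by
  unfold Geo.Ok geo2
  exact geo2_ok'

/-! ### the plane of a variant -/

/-- the digits of `raw` -/
def rawF (G : Geo) (lx ly qx qy tw tx ty td : List ℕ) (n : ℕ) : ℕ :=
  ((wL.getD (co G.sw n) 0 * lx.getD (co G.sx n) 0 * ly.getD (co G.sy n) 0 +
      qx.getD (co G.sw n + co G.sx n) 0) +
    (qy.getD (co G.sw n + co G.sy n) 0 + cL.getD (co G.sw n) 0)) +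
  ((tw.getD (co G.sw n) 0 + tx.getD (co G.sx n) 0) +
    (ty.getD (co G.sy n) 0 + td.getD (co G.sw n + co G.sx n + co G.sy n) 0))

theorem raw_pl {G : Geo} (hG : G.Ok) {lx ly qx qy tw tx ty td : List ℕ}
    (hx : lx.length ≤ 24 ∧ ∀ x ∈ lx, x ≤ 480) (hy : ly.length ≤ 24 ∧ ∀ x ∈ ly, x ≤ 40)
    (hqx : qx.length ≤ 48 ∧ ∀ x ∈ qx, x ≤ 32000) (hqy : qy.length ≤ 48 ∧ ∀ x ∈ qy, x ≤ 32000)
    (h1 : tw.length ≤ 24 ∧ ∀ x ∈ tw, x ≤ 8388607) (h2 : tx.length ≤ 24 ∧ ∀ x ∈ tx, x ≤ 8388607)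
    (h3 : ty.length ≤ 24 ∧ ∀ x ∈ ty, x ≤ 8388607) (h4 : td.length ≤ 72 ∧ ∀ x ∈ td, x ≤ 8388607) :
    Pl 13824 (2 ^ 26) (raw G lx ly qx qy tw tx ty td) (rawF G lx ly qx qy tw tx ty td) := by
  have lt : ∀ {l : List ℕ} {a b : ℕ}, (∀ x ∈ l, x ≤ a) → a < b → ∀ x ∈ l, x < b :=
    fun h hab x hx => (h x hx).trans_lt hab
  have p1 : Pl 13824 384001 (G.pr wL lx ly)
      (fun n => wL.getD (co G.sw n) 0 * lx.getD (co G.sx n) 0 * ly.getD (co G.sy n) 0) := by
    refine ⟨hG.pr _ _ _ (by decide) hx.1 hy.1, fun n _ => ?_⟩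
    have a1 := getD_le wL_le (co G.sw n)
    have a2 := getD_le hx.2 (co G.sx n)
    have a3 := getD_le hy.2 (co G.sy n)
    exact lt_of_le_of_lt (Nat.mul_le_mul (Nat.mul_le_mul a1 a2) a3) (by norm_num)
  have p2 : Pl 13824 32001 (G.rx qx) (fun n => qx.getD (co G.sw n + co G.sx n) 0) :=
    ⟨hG.rx _ hqx.1 (lt hqx.2 (by norm_num)), fun n _ => Nat.lt_succ_iff.2 (getD_le hqx.2 _)⟩
  have p3 : Pl 13824 32001 (G.ry qy) (fun n => qy.getD (co G.sw n + co G.sy n) 0) :=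
    ⟨hG.ry _ hqy.1 (lt hqy.2 (by norm_num)), fun n _ => Nat.lt_succ_iff.2 (getD_le hqy.2 _)⟩
  have p4 : Pl 13824 32001 (tabL G.sw G.mw cL) (fun n => cL.getD (co G.sw n) 0) :=
    Pl.tab hG.sw0 hG.hw (by decide) (lt cL_le (by norm_num)) (by norm_num)
  have p5 : Pl 13824 8388608 (tabL G.sw G.mw tw) (fun n => tw.getD (co G.sw n) 0) :=
    Pl.tab hG.sw0 hG.hw h1.1 (lt h1.2 (by norm_num)) (by norm_num)
  have p6 : Pl 13824 8388608 (tabL G.sx G.mx tx) (fun n => tx.getD (co G.sx n) 0) :=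
    Pl.tab hG.sx0 hG.hx h2.1 (lt h2.2 (by norm_num)) (by norm_num)
  have p7 : Pl 13824 8388608 (tabL G.sy G.my ty) (fun n => ty.getD (co G.sy n) 0) :=
    Pl.tab hG.sy0 hG.hy h3.1 (lt h3.2 (by norm_num)) (by norm_num)
  have p8 : Pl 13824 8388608 (rid3 td)
      (fun n => td.getD (co G.sw n + co G.sx n + co G.sy n) 0) :=
    ⟨hG.r3 _ h4.1 (lt h4.2 (by norm_num)), fun n _ => Nat.lt_succ_iff.2 (getD_le h4.2 _)⟩
  exact (((p1.add p2).add (p3.add p4)).add ((p5.add p6).add (p7.add p8))).mono (by norm_num)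

end Pool.Agent.Helper51.NE
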