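import Pool.Agent.Helper51.NE.ClassA

/-!
# The class check: the planes of a cell
-/

set_option autoImplicit false
set_option maxHeartbeats 400000

namespace Pool.Agent.Helper51.NE

open Pool.Agent.Helper56.NE

attribute [local irreducible] rid01 rid12 rid02 rid3 prod3

/-- the price in a table of entries `2 ^ 22 + φ n`, `n = -20 .. 40` -/
def vof (l : List ℕ) (n : ℤ) : ℤ := (l.getD (n + 20).toNat 0 : ℤ) - 4194304

/-- the grid cell lies in the variant, with the value `x` -/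
structure VarP.In (v : VarP) (g : GC) (x : ℤ) : Prop where
  w0 : 0 ≤ g.w
  w1 : g.w ≤ 20
  X0 : 0 ≤ g.X
  Y0 : 0 ≤ g.Y
  D0 : 0 ≤ g.D
  D1 : g.D ≤ 20
  sum : g.X + g.Y + g.D = 20 + g.w
  bw : (v.w0 : ℤ) ≤ g.w ∧ g.w ≤ v.w1
  bX : (v.x0 : ℤ) ≤ g.X ∧ g.X ≤ v.x1
  bY : (v.y0 : ℤ) ≤ g.Y ∧ g.Y ≤ v.y1
  bD : (v.d0 : ℤ) ≤ g.D ∧ g.D ≤ v.d1
  val : x = 4 * g.vol + vof v.tw g.w + vof v.tx g.X + vof v.ty g.Y + vof v.td g.D

/-- the grid cell is a state of the cell, with the value `x` -/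
def CellD.Val (c : CellD) (g : GC) (x : ℤ) : Prop :=
  (∃ t, c.ab = some t ∧ g = ⟨-20, 0, 0, 40⟩ ∧
    x = vof t.1 (-20) + vof t.2.1 0 + vof t.2.2.1 0 + vof t.2.2.2 40) ∨
  ∃ v ∈ c.pv, v.In g x

/-- the digit of a state -/
def VarP.dg (v : VarP) (w X Y D : ℕ) : ℕ :=
  12 * w * X * Y + 4 * (w - X) ^ 3 + 4 * (w - Y) ^ 3 + (32000 - 4 * w ^ 3) +
    (v.tw.getD (20 + w) 0 + v.tx.getD (20 + X) 0 + v.ty.getD (20 + Y) 0 + v.td.getD (20 + D) 0)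

theorem VarP.In.nat {v : VarP} {g : GC} {x : ℤ} (h : v.In g x) :
    ∃ w X Y D : ℕ, g.w = w ∧ g.X = X ∧ g.Y = Y ∧ w ≤ 20 ∧ D ≤ 20 ∧ X + Y + D = 20 + w ∧
      (v.w0 ≤ w ∧ w ≤ v.w1) ∧ (v.x0 ≤ X ∧ X ≤ v.x1) ∧ (v.y0 ≤ Y ∧ Y ≤ v.y1) ∧
      (v.d0 ≤ D ∧ D ≤ v.d1) ∧ 16809216 + x = (v.dg w X Y D : ℤ) := by
  obtain ⟨w, hw⟩ := Int.eq_ofNat_of_zero_le h.w0
  obtain ⟨X, hX⟩ := Int.eq_ofNat_of_zero_le h.X0
  obtain ⟨Y, hY⟩ := Int.eq_ofNat_of_zero_le h.Y0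
  obtain ⟨D, hD⟩ := Int.eq_ofNat_of_zero_le h.D0
  have a1 := h.w1
  have a2 := h.D1
  have a3 := h.sum
  have b1 := h.bw
  have b2 := h.bX
  have b3 := h.bY
  have b4 := h.bD
  have hv := h.val
  rw [hw] at a1 a3 b1
  rw [hX] at a3 b2
  rw [hY] at a3 b3
  rw [hD] at a2 a3 b4
  have hw20 : w ≤ 20 := by omega
  refine ⟨w, X, Y, D, hw, hX, hY, hw20, by omega, by omega, by omega, by omega, by omega,
    by omega, ?_⟩
  have e1 : vof v.tw g.w = (v.tw.getD (20 + w) 0 : ℤ) - 4194304 := by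
    unfold vof
    rw [hw, show ((w : ℤ) + 20).toNat = 20 + w by omega]
  have e2 : vof v.tx g.X = (v.tx.getD (20 + X) 0 : ℤ) - 4194304 := by
    unfold vof
    rw [hX, show ((X : ℤ) + 20).toNat = 20 + X by omega]
  have e3 : vof v.ty g.Y = (v.ty.getD (20 + Y) 0 : ℤ) - 4194304 := by
    unfold vof
    rw [hY, show ((Y : ℤ) + 20).toNat = 20 + Y by omega]
  have e4 : vof v.td g.D = (v.td.getD (20 + D) 0 : ℤ) - 4194304 := by
    unfold vof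
    rw [hD, show ((D : ℤ) + 20).toNat = 20 + D by omega]
  have m1 : max ((w : ℤ) - X) 0 = ((w - X : ℕ) : ℤ) := by omega
  have m2 : max ((w : ℤ) - Y) 0 = ((w - Y : ℕ) : ℤ) := by omega
  have c1 : ((32000 - 4 * w ^ 3 : ℕ) : ℤ) = 32000 - 4 * (w : ℤ) ^ 3 := by
    have : 4 * w ^ 3 ≤ 32000 := by
      calc 4 * w ^ 3 ≤ 4 * 20 ^ 3 := by gcongr
        _ = 32000 := by norm_num
    push_cast [Nat.cast_sub this]
    ring
  have e5 : g.vol = 3 * (w : ℤ) * X * Y - w ^ 3 + ((w - X : ℕ) : ℤ) ^ 3 + ((w - Y : ℕ) : ℤ) ^ 3 := by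
    unfold GC.vol
    rw [if_neg (by rw [hw]; omega), hw, hX, hY, m1, m2]
  rw [hv, e1, e2, e3, e4, e5]
  unfold VarP.dg
  push_cast [c1]
  ring

section

variable {G : Geo} (hG : G.Ok) {v : VarP} {w X Y D : ℕ}

include hG

omit hG in
theorem ok_lists (hv : v.ok = true) :
    (∀ x ∈ v.lw, x ≤ 8388607) ∧ (∀ x ∈ v.lx, x ≤ 8388607) ∧ (∀ x ∈ v.hx, x ≤ 8388607) ∧
      (∀ x ∈ v.ly, x ≤ 8388607) ∧ (∀ x ∈ v.hy, x ≤ 8388607) ∧ (∀ x ∈ v.ld, x ≤ 8388607) ∧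
      (∀ x ∈ v.hd, x ≤ 8388607) ∧ v.lw.length = 21 ∧ v.ld.length = 41 ∧ v.hd.length = 19 := by
  unfold VarP.ok at hv
  simp only [Bool.and_eq_true, small_iff, Nat.beq_eq] at hv
  obtain ⟨⟨⟨h1, h2⟩, h3, h4⟩, ⟨h5, h6⟩, h7, h8, h9, h10⟩ := hv
  exact ⟨h1, h2, h3, h4, h5, h6, h7, h8, h9, h10⟩

omit hG in
theorem lw_getD (hl : v.lw.length = 21) (hw : w ≤ 20) (hb : v.w0 ≤ w ∧ w ≤ v.w1) :
    v.lw.getD (20 - w) 0 = v.tw.getD (20 + w) 0 := by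
  unfold VarP.lw at hl ⊢
  rw [List.length_reverse] at hl
  rw [rev_getD hl (by omega), show 21 - 1 - (20 - w) = w by omega, clp_getD (by omega) (by omega),
    take_getD (by omega), drop_getD]

omit hG in
theorem lx_getD (hX : X ≤ 21) (hb : v.x0 ≤ X ∧ X ≤ v.x1) :
    v.lx.getD X 0 = v.tx.getD (20 + X) 0 := by
  unfold VarP.lx
  rw [clp_getD (by omega) (by omega), take_getD (by omega), drop_getD]

omit hG in
theorem hx_getD (hX : 22 ≤ X) (hX' : X ≤ 40) (hb : v.x0 ≤ X ∧ X ≤ v.x1) :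
    v.hx.getD (X - 22) 0 = v.tx.getD (20 + X) 0 := by
  unfold VarP.hx
  rw [clp_getD (by omega) (by omega), take_getD (by omega), drop_getD,
    show 42 + (X - 22) = 20 + X by omega]

omit hG in
theorem ly_getD (hY : Y ≤ 21) (hb : v.y0 ≤ Y ∧ Y ≤ v.y1) :
    v.ly.getD Y 0 = v.ty.getD (20 + Y) 0 := by
  unfold VarP.ly
  rw [clp_getD (by omega) (by omega), take_getD (by omega), drop_getD]

omit hG in
theorem hy_getD (hY : 22 ≤ Y) (hY' : Y ≤ 40) (hb : v.y0 ≤ Y ∧ Y ≤ v.y1) :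
    v.hy.getD (Y - 22) 0 = v.ty.getD (20 + Y) 0 := by
  unfold VarP.hy
  rw [clp_getD (by omega) (by omega), take_getD (by omega), drop_getD,
    show 42 + (Y - 22) = 20 + Y by omega]

omit hG in
theorem ld_getD (hl : v.ld.length = 41) (hD : D ≤ 20) (hb : v.d0 ≤ D ∧ D ≤ v.d1) :
    v.ld.getD (40 - D) 0 = v.td.getD (20 + D) 0 := by
  unfold VarP.ld at hl ⊢
  have e : ∀ l : List ℕ, (List.append [0, 0, 0, 0, 0, 0, 0, 0, 0, 0, 0, 0, 0, 0, 0, 0, 0, 0, 0, 0]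
      l).length = 20 + l.length := fun l => by
    show ([0, 0, 0, 0, 0, 0, 0, 0, 0, 0, 0, 0, 0, 0, 0, 0, 0, 0, 0, 0] ++ l).length = _
    rw [List.length_append]
    rfl
  have e' : ∀ l : List ℕ, ∀ i, (List.append [0, 0, 0, 0, 0, 0, 0, 0, 0, 0, 0, 0, 0, 0, 0, 0, 0, 0, 0, 0]
      l).getD (20 + i) 0 = l.getD i 0 := fun l i => by
    show ([0, 0, 0, 0, 0, 0, 0, 0, 0, 0, 0, 0, 0, 0, 0, 0, 0, 0, 0, 0] ++ l).getD (20 + i) 0 = _
    rw [List.getD_append_right _ _ _ _ (by show 20 ≤ 20 + i; omega)]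
    show l.getD (20 + i - 20) 0 = _
    rw [Nat.add_sub_cancel_left]
  rw [e, List.length_reverse] at hl
  rw [show 40 - D = 20 + (20 - D) by omega, e', rev_getD (N := 21) (by omega) (by omega),
    show 21 - 1 - (20 - D) = D by omega, clp_getD (by omega) (by omega),
    take_getD (by omega), drop_getD]

omit hG in
theorem hd_getD (hl : v.hd.length = 19) (hD : D ≤ 18) (hb : v.d0 ≤ D ∧ D ≤ v.d1) :
    v.hd.getD (18 - D) 0 = v.td.getD (20 + D) 0 := by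
  unfold VarP.hd at hl ⊢
  rw [List.length_reverse] at hl
  rw [rev_getD hl (by omega), show 19 - 1 - (18 - D) = D by omega, clp_getD (by omega) (by omega),
    take_getD (by omega), drop_getD]

theorem pL_dg (hv : v.ok = true) (hw : w ≤ 20) (hX : X ≤ 21) (hY : Y ≤ 21) (hD : D ≤ 20)
    (hs : X + Y + D = 20 + w) (bw : v.w0 ≤ w ∧ w ≤ v.w1) (bX : v.x0 ≤ X ∧ X ≤ v.x1)
    (bY : v.y0 ≤ Y ∧ Y ≤ v.y1) (bD : v.d0 ≤ D ∧ D ≤ v.d1) :
    rawF G xL yL qL qL v.lw v.lx v.ly v.ld (G.sw * (20 - w) + G.sx * X + G.sy * Y) =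
      v.dg w X Y D := by
  obtain ⟨-, -, -, -, -, -, -, l1, l2, -⟩ := ok_lists hv
  obtain ⟨-, i1, i2, i3⟩ := hG.ix (20 - w) X Y (by omega) (by omega) (by omega)
  unfold rawF VarP.dg
  rw [i1, i2, i3, wL_getD _ (by omega), xL_getD _ hX, yL_getD _ hY, qL_getD _ (by omega),
    qL_getD _ (by omega), cL_getD _ (by omega), lw_getD l1 hw bw, lx_getD hX bX, ly_getD hY bY,
    show 20 - w + X + Y = 40 - D by omega, ld_getD l2 hD bD, show 20 - (20 - w) = w by omega,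
    show 20 - (20 - w + X) = w - X by omega, show 20 - (20 - w + Y) = w - Y by omega]
  ring

theorem pX_dg (hv : v.ok = true) (hw : w ≤ 20) (hX : 22 ≤ X)
    (hs : X + Y + D = 20 + w) (bw : v.w0 ≤ w ∧ w ≤ v.w1) (bX : v.x0 ≤ X ∧ X ≤ v.x1)
    (bY : v.y0 ≤ Y ∧ Y ≤ v.y1) (bD : v.d0 ≤ D ∧ D ≤ v.d1) :
    rawF G xH yL [] qL v.lw v.hx v.ly v.hd (G.sw * (20 - w) + G.sx * (X - 22) + G.sy * Y) =
      v.dg w X Y D := by
  obtain ⟨-, -, -, -, -, -, -, l1, -, l2⟩ := ok_lists hv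
  obtain ⟨-, i1, i2, i3⟩ := hG.ix (20 - w) (X - 22) Y (by omega) (by omega) (by omega)
  unfold rawF VarP.dg
  rw [i1, i2, i3, wL_getD _ (by omega), xH_getD _ (by omega), yL_getD _ (by omega),
    qL_getD _ (by omega), cL_getD _ (by omega), lw_getD l1 hw bw, hx_getD hX (by omega) bX,
    ly_getD (by omega) bY, show 20 - w + (X - 22) + Y = 18 - D by omega,
    hd_getD l2 (by omega) bD, show 20 - (20 - w) = w by omega,
    show 20 - (20 - w + Y) = w - Y by omega, show 22 + (X - 22) = X by omega,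
    show w - X = 0 by omega, List.getD_nil]
  ring

theorem pY_dg (hv : v.ok = true) (hw : w ≤ 20) (hY : 22 ≤ Y)
    (hs : X + Y + D = 20 + w) (bw : v.w0 ≤ w ∧ w ≤ v.w1) (bX : v.x0 ≤ X ∧ X ≤ v.x1)
    (bY : v.y0 ≤ Y ∧ Y ≤ v.y1) (bD : v.d0 ≤ D ∧ D ≤ v.d1) :
    rawF G xL yH qL [] v.lw v.lx v.hy v.hd (G.sw * (20 - w) + G.sx * X + G.sy * (Y - 22)) =
      v.dg w X Y D := by
  obtain ⟨-, -, -, -, -, -, -, l1, -, l2⟩ := ok_lists hv
  obtain ⟨-, i1, i2, i3⟩ := hG.ix (20 - w) X (Y - 22) (by omega) (by omega) (by omega)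
  unfold rawF VarP.dg
  rw [i1, i2, i3, wL_getD _ (by omega), xL_getD _ (by omega), yH_getD _ (by omega),
    qL_getD _ (by omega), cL_getD _ (by omega), lw_getD l1 hw bw, hy_getD hY (by omega) bY,
    lx_getD (by omega) bX, show 20 - w + X + (Y - 22) = 18 - D by omega,
    hd_getD l2 (by omega) bD, show 20 - (20 - w) = w by omega,
    show 20 - (20 - w + X) = w - X by omega, show 22 + (Y - 22) = Y by omega,
    show w - Y = 0 by omega, List.getD_nil]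
  ring

theorem pL_pl (hv : v.ok = true) :
    Pl 13824 (2 ^ 26) (v.pL G) (rawF G xL yL qL qL v.lw v.lx v.ly v.ld) := by
  obtain ⟨h1, h2, h3, h4, h5, h6, h7, l1, l2, l3⟩ := ok_lists hv
  refine raw_pl hG ⟨by decide, xL_le⟩ ⟨by decide, yL_le⟩ ⟨by decide, qL_le⟩ ⟨by decide, qL_le⟩
    ⟨by omega, h1⟩ ⟨?_, h2⟩ ⟨?_, h4⟩ ⟨by omega, h6⟩
  · unfold VarP.lx
    rw [clp_length, List.length_take]
    omega
  · unfold VarP.ly
    rw [clp_length, List.length_take]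
    omega

theorem pX_pl (hv : v.ok = true) :
    Pl 13824 (2 ^ 26) (v.pX G) (rawF G xH yL [] qL v.lw v.hx v.ly v.hd) := by
  obtain ⟨h1, h2, h3, h4, h5, h6, h7, l1, l2, l3⟩ := ok_lists hv
  refine raw_pl hG ⟨by decide, xH_le⟩ ⟨by decide, yL_le⟩ ⟨by decide, by decide⟩ ⟨by decide, qL_le⟩
    ⟨by omega, h1⟩ ⟨?_, h3⟩ ⟨?_, h4⟩ ⟨by omega, h7⟩
  · unfold VarP.hx
    rw [clp_length, List.length_take]
    omega
  · unfold VarP.ly
    rw [clp_length, List.length_take]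
    omega

theorem pY_pl (hv : v.ok = true) :
    Pl 13824 (2 ^ 26) (v.pY G) (rawF G xL yH qL [] v.lw v.lx v.hy v.hd) := by
  obtain ⟨h1, h2, h3, h4, h5, h6, h7, l1, l2, l3⟩ := ok_lists hv
  refine raw_pl hG ⟨by decide, xL_le⟩ ⟨by decide, yH_le⟩ ⟨by decide, qL_le⟩ ⟨by decide, by decide⟩
    ⟨by omega, h1⟩ ⟨?_, h2⟩ ⟨?_, h5⟩ ⟨by omega, h7⟩
  · unfold VarP.lx
    rw [clp_length, List.length_take]
    omega
  · unfold VarP.hy
    rw [clp_length, List.length_take]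
    omega

end

theorem mxs_pl {f : VarP → ℕ} {F : VarP → ℕ → ℕ} {l : List VarP}
    (h : ∀ v ∈ l, Pl 13824 (2 ^ 26) (f v) (F v)) :
    ∃ φ, Pl 13824 (2 ^ 26) (mxs f l) φ ∧ ∀ v ∈ l, ∀ n, F v n ≤ φ n := by
  induction l with
  | nil =>
    refine ⟨fun _ => 0, ⟨?_, fun _ _ => by norm_num⟩, fun v hv => absurd hv (by simp)⟩
    exact (pk_zero_of fun _ _ => rfl).symm
  | cons a l ih =>
    obtain ⟨φ, h1, h2⟩ := ih fun v hv => h v (List.mem_cons_of_mem _ hv)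
    refine ⟨fun n => Max.max (F a n) (φ n), (h a List.mem_cons_self).max h1 (by norm_num),
      fun v hv n => ?_⟩
    rcases List.mem_cons.1 hv with rfl | hv
    · exact le_max_left _ _
    · exact (h2 v hv n).trans (le_max_right _ _)

end Pool.Agent.Helper51.NE
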