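import Pool.Agent.Helper51.NE.Pack4

/-!
# The class check: definitions

Digits: `16809216 = 4 * 2 ^ 22 + 32000` plus the value of the state. Coordinates of a cell: `20 - w`
(`22` for an absent cell), `min X 22`, `min Y 22`.
-/

set_option autoImplicit false

namespace Pool.Agent.Helper51.NE

/-- a present variant of a cell: its box and its tables (61 entries `2 ^ 22 + φ n`, `n = -20 .. 40`) -/
structure VarP where
  w0 : ℕ
  w1 : ℕ
  x0 : ℕ
  x1 : ℕ
  y0 : ℕ
  y1 : ℕ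
  d0 : ℕ
  d1 : ℕ
  tw : List ℕ
  tx : List ℕ
  ty : List ℕ
  td : List ℕ

/-- the tables of the absent variant, if allowed, and the present variants -/
structure CellD where
  ab : Option (List ℕ × List ℕ × List ℕ × List ℕ)
  pv : List VarP

/-- `0` outside `lo .. hi`, index from `i` -/
def clp (lo hi : ℕ) (l : List ℕ) : ℕ → List ℕ :=
  List.rec (motive := fun _ => ℕ → List ℕ) (fun _ => [])
    (fun a _ ih i => (bif Bool.and (Nat.ble lo i) (Nat.ble i hi) then a else 0) :: ih (Nat.succ i)) l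

def wL : List ℕ := [20, 19, 18, 17, 16, 15, 14, 13, 12, 11, 10, 9, 8, 7, 6, 5, 4, 3, 2, 1, 0]

def yL : List ℕ := [0, 1, 2, 3, 4, 5, 6, 7, 8, 9, 10, 11, 12, 13, 14, 15, 16, 17, 18, 19, 20, 21]

def yH : List ℕ := [22, 23, 24, 25, 26, 27, 28, 29, 30, 31, 32, 33, 34, 35, 36, 37, 38, 39, 40]

def xL : List ℕ :=
  [0, 12, 24, 36, 48, 60, 72, 84, 96, 108, 120, 132, 144, 156, 168, 180, 192, 204, 216, 228, 240, 252]

def xH : List ℕ :=
  [264, 276, 288, 300, 312, 324, 336, 348, 360, 372, 384, 396, 408, 420, 432, 444, 456, 468, 480]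

/-- `4 (20 - t) ^ 3` -/
def qL : List ℕ :=
  [32000, 27436, 23328, 19652, 16384, 13500, 10976, 8788, 6912, 5324, 4000, 2916, 2048, 1372, 864, 500,
    256, 108, 32, 4, 0]

/-- `32000 - 4 (20 - t) ^ 3` -/
def cL : List ℕ :=
  [0, 4564, 8672, 12348, 15616, 18500, 21024, 23212, 25088, 26676, 28000, 29084, 29952, 30628, 31136,
    31500, 31744, 31892, 31968, 31996, 32000]

/-- the axes of a cell -/
structure Geo where
  sw : ℕ
  mw : ℕ
  sx : ℕ
  mx : ℕ
  sy : ℕ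
  my : ℕ
  pr : List ℕ → List ℕ → List ℕ → ℕ
  rx : List ℕ → ℕ
  ry : List ℕ → ℕ

def geo0 : Geo := ⟨576, 1, 24, 24, 1, 576, fun w x y => prod3 w x y, rid01, rid02⟩
def geo1 : Geo := ⟨24, 24, 1, 576, 576, 1, fun w x y => prod3 y w x, rid12, rid01⟩
def geo2 : Geo := ⟨1, 576, 576, 1, 24, 24, fun w x y => prod3 x y w, rid02, rid12⟩

/-- the plane of a variant: products, ridges and tables -/
def raw (G : Geo) (lx ly qx qy tw tx ty td : List ℕ) : ℕ :=
  Nat.add
    (Nat.add (Nat.add (G.pr wL lx ly) (G.rx qx)) (Nat.add (G.ry qy) (tabL G.sw G.mw cL)))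
    (Nat.add (Nat.add (tabL G.sw G.mw tw) (tabL G.sx G.mx tx)) (Nat.add (tabL G.sy G.my ty) (rid3 td)))

/-- the tables of a variant by coordinates -/
def VarP.lw (v : VarP) : List ℕ := (clp v.w0 v.w1 ((v.tw.drop 20).take 21) 0).reverse
def VarP.lx (v : VarP) : List ℕ := clp v.x0 v.x1 ((v.tx.drop 20).take 22) 0
def VarP.hx (v : VarP) : List ℕ := clp v.x0 v.x1 ((v.tx.drop 42).take 19) 22
def VarP.ly (v : VarP) : List ℕ := clp v.y0 v.y1 ((v.ty.drop 20).take 22) 0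
def VarP.hy (v : VarP) : List ℕ := clp v.y0 v.y1 ((v.ty.drop 42).take 19) 22
def VarP.ld (v : VarP) : List ℕ :=
  List.append [0, 0, 0, 0, 0, 0, 0, 0, 0, 0, 0, 0, 0, 0, 0, 0, 0, 0, 0, 0]
    (clp v.d0 v.d1 ((v.td.drop 20).take 21) 0).reverse
def VarP.hd (v : VarP) : List ℕ := (clp v.d0 v.d1 ((v.td.drop 20).take 19) 0).reverse

/-- the planes of the variant: `X, Y ≤ 21`; `X ≥ 22`; `Y ≥ 22` -/
def VarP.pL (v : VarP) (G : Geo) : ℕ := raw G xL yL qL qL v.lw v.lx v.ly v.ld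
def VarP.pX (v : VarP) (G : Geo) : ℕ := raw G xH yL [] qL v.lw v.hx v.ly v.hd
def VarP.pY (v : VarP) (G : Geo) : ℕ := raw G xL yH qL [] v.lw v.lx v.hy v.hd

/-- maximum over the variants -/
def mxs (f : VarP → ℕ) (l : List VarP) : ℕ :=
  List.rec (motive := fun _ => ℕ) 0 (fun v _ ih => maxp 28 (TT 13824) (f v) ih) l

/-- the plane of the absent state -/
def CellD.pA (c : CellD) (G : Geo) : ℕ :=
  Option.rec (motive := fun _ => ℕ) 0 (fun t => Nat.shiftLeft
    (Nat.add (Nat.add (t.1.getD 0 0) (t.2.1.getD 20 0))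
      (Nat.add (Nat.add (t.2.2.1.getD 20 0) (t.2.2.2.getD 60 0)) 32000)) (29 * (22 * G.sw))) c.ab

/-- the plane of a cell -/
def CellD.pl (c : CellD) (G : Geo) : ℕ :=
  maxp 28 (TT 13824)
    (maxp 28 (TT 13824) (mxs (fun v => v.pL G) c.pv) (c.pA G))
    (maxp 28 (TT 13824)
      (Nat.land (pfull 13824 G.sx G.mx (mxs (fun v => v.pX G) c.pv)) (mup G.sx G.mx 22))
      (Nat.land (pfull 13824 G.sy G.my (mxs (fun v => v.pY G) c.pv)) (mup G.sy G.my 22)))

/-- with the prefix maxima -/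
def CellD.F (c : CellD) (G : Geo) : ℕ := pfull 13824 G.sx G.mx (pfull 13824 G.sy G.my (c.pl G))

/-- `Y` free -/
def CellD.GX (c : CellD) (G : Geo) : ℕ := sl G.sy G.my (c.F G)
/-- `X` free -/
def CellD.GY (c : CellD) (G : Geo) : ℕ := sl G.sx G.mx (c.F G)
/-- both free -/
def CellD.H (c : CellD) (G : Geo) : ℕ := sl G.sx G.mx (c.GX G)

/-- shift by one -/
def up1 (σ P : ℕ) : ℕ := Nat.shiftRight P (29 * σ)

def cmp3 (R A B C : ℕ) : Bool := leb (TT 13824) (Nat.add (Nat.add A B) C) R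

/-- the eight orientations -/
def tri8 (R : ℕ) (c0 c1 c2 : CellD) : Bool :=
  Bool.and
    (Bool.and
      (Bool.and (cmp3 R (c0.GX geo0) (up1 geo1.sx (c1.GX geo1)) (c2.GX geo2))
        (cmp3 R (c0.GY geo0) (c1.GY geo1) (up1 geo2.sy (c2.GY geo2))))
      (Bool.and (cmp3 R (up1 geo0.sy (c0.F geo0)) (c1.GX geo1) (c2.H geo2))
        (cmp3 R (up1 geo0.sx (c0.F geo0)) (c1.H geo1) (c2.GY geo2))))
    (Bool.and
      (Bool.and (cmp3 R (c0.GX geo0) (c1.H geo1) (up1 geo2.sy (c2.F geo2)))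
        (cmp3 R (c0.H geo0) (up1 geo1.sy (c1.F geo1)) (c2.GX geo2)))
      (Bool.and (cmp3 R (c0.H geo0) (c1.GY geo1) (up1 geo2.sx (c2.F geo2)))
        (cmp3 R (c0.GY geo0) (up1 geo1.sx (c1.F geo1)) (c2.H geo2))))

/-- all entries below `2 ^ 23` -/
def small (l : List ℕ) : Bool :=
  List.rec (motive := fun _ => Bool) true (fun a _ ih => Bool.and (Nat.ble a 8388607) ih) l

def VarP.ok (v : VarP) : Bool :=
  Bool.and (Bool.and (Bool.and (small v.lw) (small v.lx)) (Bool.and (small v.hx) (small v.ly)))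
    (Bool.and (Bool.and (small v.hy) (small v.ld))
      (Bool.and (small v.hd) (Bool.and (Nat.beq v.lw.length 21)
        (Bool.and (Nat.beq v.ld.length 41) (Nat.beq v.hd.length 19)))))

def CellD.ok (c : CellD) : Bool :=
  Bool.and (List.rec (motive := fun _ => Bool) true (fun v _ ih => Bool.and v.ok ih) c.pv)
    (Option.rec (motive := fun _ => Bool) true (fun t =>
      Bool.and (Bool.and (Nat.ble (t.1.getD 0 0) 8388607) (Nat.ble (t.2.1.getD 20 0) 8388607))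
        (Bool.and (Nat.ble (t.2.2.1.getD 20 0) 8388607) (Nat.ble (t.2.2.2.getD 60 0) 8388607))) c.ab)

/-- **The class check.** -/
def classOK (Mo : ℕ) (c0 c1 c2 : CellD) : Bool :=
  Bool.and (Bool.and (Bool.and c0.ok c1.ok) (Bool.and c2.ok (Nat.ble Mo 201326591)))
    (tri8 (cst 13824 Mo) c0 c1 c2)

/-- the bound `mo + bw * w` by the first coordinate -/
def lsM (mo bw : ℕ) : List ℕ :=
  List.rec (motive := fun _ => List ℕ) [mo, mo, mo] (fun w _ ih => Nat.add mo (Nat.mul bw w) :: ih) wL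

/-- **The main check of a cell.** -/
def mainOK1 (G : Geo) (mo bw : ℕ) (c : CellD) : Bool :=
  Bool.and (Bool.and c.ok (Nat.ble (Nat.add mo (Nat.mul 20 bw)) 67108863))
    (leb (TT 13824) (c.pl G) (tabL G.sw G.mw (lsM mo bw)))

def mainOK (mo0 mo1 mo2 bw : ℕ) (c0 c1 c2 : CellD) : Bool :=
  Bool.and (mainOK1 geo0 mo0 bw c0) (Bool.and (mainOK1 geo1 mo1 bw c1) (mainOK1 geo2 mo2 bw c2))

end Pool.Agent.Helper51.NE
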