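import Pool.Agent.Helper51.NE.ClassS

/-!
# The oriented class check

One orientation, the relaxed pair is a parameter.
-/

set_option autoImplicit false
set_option maxHeartbeats 400000

namespace Pool.Agent.Helper51.NE

open Pool.Agent.Helper56.NE

attribute [local irreducible] rid01 rid12 rid02 rid3 prod3 mxs pfull mup TT

/-- the plane of a cell, `a`: `X` bounded, `b`: `Y` bounded, `ex`, `ey` the slacks -/
def pln (G : Geo) (a b ex ey : Bool) (c : CellD) : ℕ :=
  bif a then (bif b then (bif ex then up1 G.sx (c.F G) else bif ey then up1 G.sy (c.F G) else c.F G)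
    else bif ex then up1 G.sx (c.GX G) else c.GX G)
  else bif b then (bif ey then up1 G.sy (c.GY G) else c.GY G) else c.H G

theorem cc1 {α : Type} (x y : α) : cond true x y = x := rfl
theorem cc2 {α : Type} (x y : α) : cond false x y = y := rfl

section

attribute [local irreducible] CellD.F CellD.GX CellD.GY CellD.H up1

variable (G : Geo) (c : CellD) (ex ey : Bool)

theorem pln_ff : pln G false false ex ey c = c.H G := by
  unfold pln
  rw [cc2, cc2]

theorem pln_ft0 : pln G false true ex false c = c.GY G := by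
  unfold pln
  rw [cc2, cc1, cc2]

theorem pln_ft1 : pln G false true ex true c = up1 G.sy (c.GY G) := by
  unfold pln
  rw [cc2, cc1, cc1]

theorem pln_tf0 : pln G true false false ey c = c.GX G := by
  unfold pln
  rw [cc1, cc2, cc2]

theorem pln_tf1 : pln G true false true ey c = up1 G.sx (c.GX G) := by
  unfold pln
  rw [cc1, cc2, cc1]

theorem pln_tt0 : pln G true true false false c = c.F G := by
  unfold pln
  rw [cc1, cc1, cc2, cc2]

theorem pln_tty : pln G true true false true c = up1 G.sy (c.F G) := by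
  unfold pln
  rw [cc1, cc1, cc2, cc1]

theorem pln_ttx : pln G true true true ey c = up1 G.sx (c.F G) := by
  unfold pln
  rw [cc1, cc1, cc1]

end

attribute [local irreducible] pln CellD.F CellD.GX CellD.GY CellD.H up1

theorem pln_bd {G : Geo} (hG : G.Ok) {c : CellD} (hc : c.ok = true) (a b ex ey : Bool)
    (he : a = true → b = true → ex = true → ey = true → False) :
    Bd G c (pln G a b ex ey c) 22 (fun ix iy p q =>
      (a = true → ix ≤ p + (bif ex then 1 else 0)) ∧ (b = true → iy ≤ q + (bif ey then 1 else 0))) := by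
  cases a
  · cases b
    · rw [pln_ff]
      exact (bdH hG hc).imp le_rfl fun _ _ _ _ _ _ _ => trivial
    · cases ey
      · rw [pln_ft0]
        exact (bdGY hG hc).imp le_rfl fun _ _ _ _ _ _ h => h.2 rfl
      · rw [pln_ft1]
        exact (bdGYy hG hc).imp le_rfl fun _ _ _ _ _ _ h => h.2 rfl
  · cases b
    · cases ex
      · rw [pln_tf0]
        exact (bdGX hG hc).imp le_rfl fun _ _ _ _ _ _ h => h.1 rfl
      · rw [pln_tf1]
        exact (bdGXx hG hc).imp le_rfl fun _ _ _ _ _ _ h => h.1 rfl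
    · cases ex
      · cases ey
        · rw [pln_tt0]
          exact (bdF hG hc).imp (by norm_num) fun _ _ _ _ _ _ h => ⟨h.1 rfl, h.2 rfl⟩
        · rw [pln_tty]
          exact (bdFy hG hc).imp le_rfl fun _ _ _ _ _ _ h => ⟨h.1 rfl, h.2 rfl⟩
      · cases ey
        · rw [pln_ttx]
          exact (bdFx hG hc).imp le_rfl fun _ _ _ _ _ _ h => ⟨h.1 rfl, h.2 rfl⟩
        · exact absurd (he rfl rfl rfl rfl) id

/-- **The check of one orientation.** -/
def ckO (o0 o1 o2 e0 e1 e2 : Bool) (Mo : ℕ) (c0 c1 c2 : CellD) : Bool :=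
  Bool.and
    (Bool.and (Bool.and (Bool.and c0.ok c1.ok) (Bool.and c2.ok (Nat.ble Mo 201326591)))
      (Bool.and (Bool.not (Bool.and e0 e1)) (Bool.and (Bool.not (Bool.and e1 e2))
        (Bool.not (Bool.and e0 e2)))))
    (cmp3 (cst 13824 Mo) (pln geo0 o0 (!o2) e0 e2 c0) (pln geo1 o1 (!o0) e1 e0 c1)
      (pln geo2 o2 (!o1) e2 e1 c2))

theorem pair_bool {o e : Bool} {g h : GC} {w a b w' a' b' : ℕ} (hg : Idx g w a b)
    (hh : Idx h w' a' b') (k : PairOK o (bif e then 1 else 0) g h) :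
    (o = true → a ≤ w' + (bif e then 1 else 0)) ∧ ((!o) = true → b' ≤ w + (bif e then 1 else 0)) := by
  cases o <;> cases e
  · exact ⟨fun h => absurd h (by decide), fun _ => (pairF hg hh k).1 rfl⟩
  · exact ⟨fun h => absurd h (by decide), fun _ => (pairF hg hh k).2 rfl⟩
  · exact ⟨fun _ => (pairT hg hh k).1 rfl, fun h => absurd h (by decide)⟩
  · exact ⟨fun _ => (pairT hg hh k).2 rfl, fun h => absurd h (by decide)⟩

/-- **Soundness of the check of one orientation.** -/
theorem ckO_sound {o0 o1 o2 e0 e1 e2 : Bool} {Mo : ℕ} {c0 c1 c2 : CellD}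
    (h : ckO o0 o1 o2 e0 e1 e2 Mo c0 c1 c2 = true) {g0 g1 g2 : GC} {x0 x1 x2 : ℤ}
    (v0 : c0.Val g0 x0) (v1 : c1.Val g1 x1) (v2 : c2.Val g2 x2)
    (q0 : PairOK o0 (bif e0 then 1 else 0) g0 g1) (q1 : PairOK o1 (bif e1 then 1 else 0) g1 g2)
    (q2 : PairOK o2 (bif e2 then 1 else 0) g2 g0) : x0 + x1 + x2 ≤ (Mo : ℤ) - 3 * 16809216 := by
  unfold ckO at h
  obtain ⟨h1, kt⟩ := Bool.and_eq_true_iff.1 h
  obtain ⟨h2, h3⟩ := Bool.and_eq_true_iff.1 h1
  obtain ⟨h4, h5⟩ := Bool.and_eq_true_iff.1 h2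
  obtain ⟨k0, k1⟩ := Bool.and_eq_true_iff.1 h4
  obtain ⟨k2, kM⟩ := Bool.and_eq_true_iff.1 h5
  obtain ⟨n01, h6⟩ := Bool.and_eq_true_iff.1 h3
  obtain ⟨n12, n02⟩ := Bool.and_eq_true_iff.1 h6
  clear h h1 h2 h3 h4 h5 h6
  have hMo : Mo < 201326592 := by
    have := Nat.le_of_ble_eq_true kM
    omega
  obtain ⟨w0, a0, b0, i0⟩ := Val.idx v0
  obtain ⟨w1, a1, b1, i1⟩ := Val.idx v1
  obtain ⟨w2, a2, b2, i2⟩ := Val.idx v2
  have r0 := pair_bool i0 i1 q0
  have r1 := pair_bool i1 i2 q1
  have r2 := pair_bool i2 i0 q2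
  have m02 : o0 = true → (!o2) = true → e0 = true → e2 = true → False := by
    rintro - - rfl rfl
    exact absurd n02 (by decide)
  have m10 : o1 = true → (!o0) = true → e1 = true → e0 = true → False := by
    rintro - - rfl rfl
    exact absurd n01 (by decide)
  have m21 : o2 = true → (!o1) = true → e2 = true → e1 = true → False := by
    rintro - - rfl rfl
    exact absurd n12 (by decide)
  exact cmp3_sound hMo (pln_bd geo0_ok k0 o0 (!o2) e0 e2 m02) (pln_bd geo1_ok k1 o1 (!o0) e1 e0 m10)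
    (pln_bd geo2_ok k2 o2 (!o1) e2 e1 m21) kt v0 v1 v2 i0 i1 i2 ⟨r0.1, r2.2⟩ ⟨r1.1, r0.2⟩
    ⟨r2.1, r1.2⟩

end Pool.Agent.Helper51.NE
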