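import Pool.Agent.Helper51.NE.Pack

/-!
# Packed planes: shifts, windows, axes

An axis of a plane with `N = 24 * σ * m` entries: the coordinate `n / σ % 24`.
-/

set_option autoImplicit false
set_option maxHeartbeats 400000

namespace Pool.Agent.Helper51.NE

open Finset

theorem pk_add_len (k c N : ℕ) (f : ℕ → ℕ) :
    pk k (c + N) f = pk k c f + 2 ^ (k * c) * pk k N (fun n => f (c + n)) := by
  unfold pk
  rw [sum_range_add, mul_sum]
  congr 1
  refine sum_congr rfl fun n _ => ?_
  rw [mul_add, pow_add]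
  ring

theorem pk_zero_of {k N : ℕ} {f : ℕ → ℕ} (h : ∀ n, n < N → f n = 0) : pk k N f = 0 := by
  unfold pk
  exact sum_eq_zero fun n hn => by rw [h n (mem_range.1 hn), zero_mul]

/-- more digits -/
theorem pk_ext {k N M : ℕ} {f : ℕ → ℕ} (hNM : N ≤ M) (h : ∀ n, N ≤ n → n < M → f n = 0) :
    pk k M f = pk k N f := by
  obtain ⟨d, rfl⟩ := Nat.exists_eq_add_of_le hNM
  rw [pk_add_len, pk_zero_of (N := d) (f := fun n => f (N + n)) fun n hn =>
    h _ (by omega) (by omega), mul_zero, add_zero]

theorem pk_mul_right (k N c : ℕ) (f : ℕ → ℕ) : pk k N (fun n => f n * c) = pk k N f * c := by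
  unfold pk
  rw [sum_mul]
  exact sum_congr rfl fun n _ => by ring

theorem pk_one (k : ℕ) (f : ℕ → ℕ) : pk k 1 f = f 0 := by simp [pk]

/-- shift up -/
theorem pk_shl (k N c : ℕ) (f : ℕ → ℕ) :
    pk k N f * 2 ^ (k * c) = pk k (c + N) (fun n => if c ≤ n then f (n - c) else 0) := by
  rw [pk_add_len, pk_zero_of (N := c) (f := fun n => if c ≤ n then f (n - c) else 0) fun n hn => by
    rw [if_neg (by omega)], zero_add, mul_comm]
  congr 1
  exact pk_congr fun n _ => by rw [if_pos (by omega), Nat.add_sub_cancel_left]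

/-- shift down -/
theorem pk_shr {k c N : ℕ} {f : ℕ → ℕ} (h : ∀ n, n < c → f n < 2 ^ k) :
    pk k (c + N) f / 2 ^ (k * c) = pk k N (fun n => f (c + n)) := by
  rw [pk_add_len, Nat.add_mul_div_left _ _ (by positivity), Nat.div_eq_of_lt (pk_lt h), zero_add]

/-- low digits -/
theorem pk_mod {k c N : ℕ} {f : ℕ → ℕ} (h : ∀ n, n < c → f n < 2 ^ k) :
    pk k (c + N) f % 2 ^ (k * c) = pk k c f := by
  rw [pk_add_len, Nat.add_mul_mod_self_left, Nat.mod_eq_of_lt (pk_lt h)]

/-! ### windows -/

/-- the windows of `L` digits of `kb` bits of `H`, `cnt` of them, at distance `S` bits -/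
def win (kb L S : ℕ) : ℕ → ℕ → ℕ
  | 0, _ => 0
  | cnt + 1, H => Nat.add (Nat.mod H (Nat.pow 2 (kb * L)))
      (Nat.shiftLeft (win kb L S cnt (Nat.shiftRight H kb)) S)

theorem win_eq {kb L S : ℕ} (cnt : ℕ) {N : ℕ} {f : ℕ → ℕ} (hN : cnt + L ≤ N)
    (h : ∀ n, n < N → f n < 2 ^ kb) :
    win kb L S cnt (pk kb N f) = pk S cnt (fun j => pk kb L (fun c => f (j + c))) := by
  induction cnt generalizing N f with
  | zero => rfl
  | succ cnt ih =>
    obtain ⟨r, rfl⟩ : ∃ r, N = L + r := ⟨N - L, by omega⟩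
    have e1 : pk kb (L + r) f % 2 ^ (kb * L) = pk kb L f := pk_mod fun n hn => h n (by omega)
    have e2 : pk kb (L + r) f / 2 ^ kb = pk kb (L + r - 1) (fun n => f (1 + n)) := by
      have : L + r = 1 + (L + r - 1) := by omega
      conv_lhs => rw [this]
      have := pk_shr (k := kb) (c := 1) (N := L + r - 1) (f := f) fun n hn => h n (by omega)
      rwa [mul_one] at this
    show pk kb (L + r) f % 2 ^ (kb * L) + (win kb L S cnt (pk kb (L + r) f >>> kb)) <<< S = _
    rw [e1, Nat.shiftRight_eq_div_pow, e2, ih (by omega) fun n hn => h _ (by omega),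
      Nat.shiftLeft_eq, pk_succ', mul_comm (2 ^ S)]
    congr 1
    · exact pk_congr fun c _ => by rw [zero_add]
    · congr 1
      exact pk_congr fun j _ => pk_congr fun c _ => by rw [show 1 + (j + c) = j + 1 + c by ring]

/-! ### axes -/

/-- the coordinate of the axis with stride `σ` -/
def co (σ n : ℕ) : ℕ := n / σ % 24

/-- the plane of a function of one coordinate -/
def axp (k σ m u : ℕ) : ℕ := Nat.mul (Nat.mul (ones k σ) u) (ones (24 * (k * σ)) m)

theorem rect2 (k σ m : ℕ) (F : ℕ → ℕ → ℕ → ℕ) :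
    pk k (m * 24 * σ) (fun n => F (n / σ / 24) (n / σ % 24) (n % σ)) =
      pk (k * σ * 24) m (fun q => pk (k * σ) 24 (fun j => pk k σ (F q j))) := by
  rw [pk_rect k (m * 24) σ (fun q r => F (q / 24) (q % 24) r)]
  exact pk_rect (k * σ) m 24 (fun q j => pk k σ (F q j))

theorem axp_eq {k σ m : ℕ} (hk : 0 < k) (hσ : 0 < σ) (u : ℕ → ℕ) :
    pk k (m * 24 * σ) (fun n => u (co σ n)) = axp k σ m (pk (k * σ) 24 u) := by
  have h1 := rect2 k σ m (fun _ j _ => u j)
  unfold co
  rw [h1]
  have h2 : (fun j => pk k σ (fun _ => u j)) = fun j => pk k σ (fun _ => 1) * u j := by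
    funext j
    rw [pk_const, mul_comm]
  rw [h2, pk_smul, pk_const, pk_ones hk, pk_ones (by positivity)]
  show _ = ones k σ * pk (k * σ) 24 u * ones (24 * (k * σ)) m
  rw [show k * σ * 24 = 24 * (k * σ) by ring]

/-- broadcast of the slice with coordinate `0` -/
theorem bcast {k σ m : ℕ} (hk : 0 < k) (hσ : 0 < σ) (S : ℕ → ℕ) :
    pk k (m * 24 * σ) (fun n => S (n - σ * co σ n)) =
      Nat.mul (pk k (m * 24 * σ) (fun n => if co σ n = 0 then S n else 0)) (ones (k * σ) 24) := by
  have h1 : pk k (m * 24 * σ) (fun n => S (24 * σ * (n / σ / 24) + n % σ)) =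
      pk (k * σ * 24) m (fun q => pk (k * σ) 24 (fun _ => pk k σ (fun r => S (24 * σ * q + r)))) :=
    rect2 k σ m (fun q _ r => S (24 * σ * q + r))
  have h2 : pk k (m * 24 * σ)
      (fun n => if n / σ % 24 = 0 then S (24 * σ * (n / σ / 24) + n % σ) else 0) =
      pk (k * σ * 24) m (fun q => pk (k * σ) 24
        (fun j => pk k σ (fun r => if j = 0 then S (24 * σ * q + r) else 0))) :=
    rect2 k σ m (fun q j r => if j = 0 then S (24 * σ * q + r) else 0)
  have key : ∀ n, n = σ * (24 * (n / σ / 24) + n / σ % 24) + n % σ := fun n => by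
    have e1 := Nat.div_add_mod n σ
    have e2 := Nat.div_add_mod (n / σ) 24
    rw [e2, e1]
  have e1 : (fun n => S (n - σ * co σ n)) = fun n => S (24 * σ * (n / σ / 24) + n % σ) := by
    funext n
    have h : n - σ * co σ n = 24 * σ * (n / σ / 24) + n % σ := by
      unfold co
      conv_lhs => rw [key n]
      have h3 : (σ * (24 * (n / σ / 24) + n / σ % 24) + n % σ) / σ % 24 = n / σ % 24 := by
        rw [← key n]
      rw [h3]
      have h4 : σ * (24 * (n / σ / 24) + n / σ % 24) = 24 * σ * (n / σ / 24) + σ * (n / σ % 24) := by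
        ring
      omega
    rw [h]
  have e2 : (fun n => if co σ n = 0 then S n else 0) =
      fun n => if n / σ % 24 = 0 then S (24 * σ * (n / σ / 24) + n % σ) else 0 := by
    funext n
    by_cases h : co σ n = 0
    · rw [if_pos h, if_pos (by unfold co at h; exact h)]
      congr 1
      have h4 := key n
      unfold co at h
      rw [h, add_zero] at h4
      conv_lhs => rw [h4]
      ring_nf
    · rw [if_neg h, if_neg (by unfold co at h; exact h)]
  rw [e1, e2]
  refine h1.trans (Eq.trans ?_ (congrArg (fun x => x * ones (k * σ) 24) h2.symm))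
  show _ = pk (k * σ * 24) m (fun q => pk (k * σ) 24
    (fun j => pk k σ (fun r => if j = 0 then S (24 * σ * q + r) else 0))) * ones (k * σ) 24
  rw [← pk_mul_right]
  refine pk_congr fun q _ => ?_
  have h3 : pk (k * σ) 24 (fun j => pk k σ (fun r => if j = 0 then S (24 * σ * q + r) else 0)) =
      pk k σ (fun r => S (24 * σ * q + r)) := by
    refine (pk_ext (N := 1) (M := 24) (by norm_num) fun n h1 _ => pk_zero_of fun r _ => by
      rw [if_neg (by omega)]).trans ?_
    rw [pk_one]
    exact pk_congr fun r _ => by rw [if_pos rfl]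
  rw [h3, pk_const, pk_ones (by positivity)]

end Pool.Agent.Helper51.NE
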