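import Pool.Agent.Helper51.NE.Pack2

/-!
# Cubes `24 × 24 × 24` of digits of 29 bits
-/

set_option autoImplicit false
set_option maxHeartbeats 400000

namespace Pool.Agent.Helper51.NE

open Finset

/-- `P` is the plane of `f`, `N` entries below `B` -/
def Pl (N B P : ℕ) (f : ℕ → ℕ) : Prop := P = pk 29 N f ∧ ∀ n, n < N → f n < B

/-- the plane of the top bits -/
def TT (N : ℕ) : ℕ := Nat.mul (Nat.pow 2 28) (ones 29 N)

theorem TT_eq (N : ℕ) : TT N = top 28 N := by
  rw [top_eq]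
  rfl

variable {N B C P Q : ℕ} {f g : ℕ → ℕ}

theorem Pl.add (h : Pl N B P f) (h' : Pl N C Q g) :
    Pl N (B + C) (Nat.add P Q) (fun n => f n + g n) := by
  refine ⟨?_, fun n hn => ?_⟩
  · rw [pk_add, ← h.1, ← h'.1]
    rfl
  · have := h.2 n hn
    have := h'.2 n hn
    show f n + g n < B + C
    omega

theorem Pl.mono (h : Pl N B P f) (hB : B ≤ C) : Pl N C P f :=
  ⟨h.1, fun n hn => (h.2 n hn).trans_le hB⟩

theorem Pl.congr (h : Pl N B P f) (hfg : ∀ n, n < N → f n = g n) : Pl N B P g :=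
  ⟨h.1.trans (pk_congr hfg), fun n hn => by rw [← hfg n hn]; exact h.2 n hn⟩

theorem Pl.max (h : Pl N B P f) (h' : Pl N B Q g) (hB : B ≤ 2 ^ 28) :
    Pl N B (maxp 28 (TT N) P Q) (fun n => Max.max (f n) (g n)) := by
  refine ⟨?_, fun n hn => max_lt (h.2 n hn) (h'.2 n hn)⟩
  rw [TT_eq, h.1, h'.1]
  exact maxp_eq (fun n hn => (h.2 n hn).trans_le hB) (fun n hn => (h'.2 n hn).trans_le hB)

theorem Pl.le (h : Pl N B P f) (h' : Pl N B Q g) (hB : B ≤ 2 ^ 28)
    (hl : leb (TT N) P Q = true) : ∀ n, n < N → f n ≤ g n :=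
  le_of_leb (TT_eq N) h.1 h'.1 (fun n hn => (h.2 n hn).trans_le hB)
    (fun n hn => (h'.2 n hn).trans_le hB) hl

/-- constant plane -/
def cst (N c : ℕ) : ℕ := Nat.mul c (ones 29 N)

theorem Pl.cst {c : ℕ} (h : c < B) : Pl N B (cst N c) (fun _ => c) := by
  refine ⟨?_, fun _ _ => h⟩
  rw [pk_const, pk_ones (by norm_num)]
  rfl

/-! ### masks -/

theorem land_zero (x : ℕ) : Nat.land x 0 = 0 := by
  rw [show Nat.land x 0 = x &&& 0 from rfl, Nat.and_zero]

theorem mask_land {p : ℕ → Prop} [DecidablePred p] (hB : B ≤ 2 ^ 29)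
    (hf : ∀ n, n < N → f n < B) :
    Nat.land (pk 29 N f) (pk 29 N (fun n => if p n then 2 ^ 29 - 1 else 0)) =
      pk 29 N (fun n => if p n then f n else 0) := by
  rw [pk_land (fun n hn => (hf n hn).trans_le hB) fun n _ => by split_ifs <;> norm_num]
  refine pk_congr fun n hn => ?_
  by_cases h : p n
  · rw [if_pos h, if_pos h]
    exact land_mask ((hf n hn).trans_le hB)
  · rw [if_neg h, if_neg h, land_zero]

/-- the mask of the coordinates `≥ s` -/
def mup (σ m s : ℕ) : ℕ :=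
  Nat.mul 536870911 (axp 29 σ m (Nat.shiftLeft (ones (29 * σ) (24 - s)) (29 * σ * s)))

theorem mask_smul {p : ℕ → Prop} [DecidablePred p] (N : ℕ) :
    Nat.mul 536870911 (pk 29 N (fun n => if p n then 1 else 0)) =
      pk 29 N (fun n => if p n then 2 ^ 29 - 1 else 0) := by
  have h := pk_smul 29 N 536870911 (fun n => if p n then 1 else 0)
  refine Eq.trans h.symm (pk_congr fun n _ => ?_)
  by_cases h : p n
  · rw [if_pos h, if_pos h]
    norm_num
  · rw [if_neg h, if_neg h]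

theorem mup_eq {σ m s : ℕ} (hσ : 0 < σ) (hs : s ≤ 24) :
    mup σ m s = pk 29 (m * 24 * σ) (fun n => if s ≤ co σ n then 2 ^ 29 - 1 else 0) := by
  have e1 : Nat.shiftLeft (ones (29 * σ) (24 - s)) (29 * σ * s) =
      pk (29 * σ) 24 (fun n => if s ≤ n then 1 else 0) := by
    have h1 : Nat.shiftLeft (ones (29 * σ) (24 - s)) (29 * σ * s) =
      ones (29 * σ) (24 - s) * 2 ^ (29 * σ * s) := Nat.shiftLeft_eq _ _
    rw [h1, ← pk_ones (by positivity), pk_shl, show s + (24 - s) = 24 by omega]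
  unfold mup
  rw [e1, ← axp_eq (by norm_num) hσ (fun n => if s ≤ n then 1 else 0)]
  exact mask_smul (p := fun n => s ≤ co σ n) _

/-- the mask of the coordinate `0` -/
def mz (σ m : ℕ) : ℕ := Nat.mul 536870911 (axp 29 σ m 1)

theorem mz_eq {σ m : ℕ} (hσ : 0 < σ) :
    mz σ m = pk 29 (m * 24 * σ) (fun n => if co σ n = 0 then 2 ^ 29 - 1 else 0) := by
  have e1 : 1 = pk (29 * σ) 24 (fun n => if n = 0 then 1 else 0) := by
    rw [pk_ext (N := 1) (by norm_num) fun n h _ => by rw [if_neg (by omega)], pk_one, if_pos rfl]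
  unfold mz
  have e2 : axp 29 σ m 1 = axp 29 σ m (pk (29 * σ) 24 (fun n => if n = 0 then 1 else 0)) := by
    rw [← e1]
  rw [e2, ← axp_eq (by norm_num) hσ (fun n => if n = 0 then 1 else 0)]
  exact mask_smul (p := fun n => co σ n = 0) _

/-! ### prefix maxima -/

/-- shift and mask -/
def shm (σ m s P : ℕ) : ℕ := Nat.land (Nat.shiftLeft P (29 * (σ * s))) (mup σ m s)

theorem co_le (σ n : ℕ) : co σ n ≤ n / σ := Nat.mod_le _ _

theorem Pl.shm {σ m s : ℕ} (h : Pl N B P f) (hB : B ≤ 2 ^ 28) (hσ : 0 < σ)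
    (hm : m * 24 * σ = N) (hs : s ≤ 24) :
    Pl N B (shm σ m s P) (fun n => if s ≤ co σ n then f (n - σ * s) else 0) := by
  have hle : ∀ n, s ≤ co σ n → σ * s ≤ n := fun n hn => by
    have h1 := hn.trans (co_le σ n)
    calc σ * s ≤ σ * (n / σ) := Nat.mul_le_mul_left _ h1
      _ ≤ n := Nat.mul_div_le n σ
  refine ⟨?_, fun n hn => ?_⟩
  · unfold NE.shm
    have h0 : Nat.shiftLeft P (29 * (σ * s)) = P * 2 ^ (29 * (σ * s)) := Nat.shiftLeft_eq _ _
    rw [h0, h.1, pk_shl, mup_eq hσ hs, hm]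
    have e1 : pk 29 N (fun n => if s ≤ co σ n then 2 ^ 29 - 1 else 0) =
        pk 29 (σ * s + N) (fun n => if n < N ∧ s ≤ co σ n then 2 ^ 29 - 1 else 0) := by
      rw [pk_ext (N := N) (M := σ * s + N) (by omega) fun n h1 _ => by
        rw [if_neg (by omega)]]
      exact pk_congr fun n hn => by simp only [hn, true_and]
    rw [e1, mask_land (B := 2 ^ 28) (p := fun n => n < N ∧ s ≤ co σ n) (by norm_num) fun n hn => ?_,
      pk_ext (N := N) (M := σ * s + N) (by omega) fun n h1 _ => by rw [if_neg (by omega)]]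
    · refine pk_congr fun n hn => ?_
      by_cases h1 : s ≤ co σ n
      · rw [if_pos ⟨hn, h1⟩, if_pos h1, if_pos (hle n h1)]
      · rw [if_neg (by tauto), if_neg h1]
    · by_cases h1 : σ * s ≤ n
      · rw [if_pos h1]
        exact (h.2 _ (by omega)).trans_le hB
      · rw [if_neg h1]
        norm_num
  · beta_reduce
    by_cases h1 : s ≤ co σ n
    · rw [if_pos h1]
      exact h.2 _ (by omega)
    · rw [if_neg h1]
      exact (Nat.zero_le _).trans_lt (h.2 n hn)

/-- one step of the prefix maxima -/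
def pst (N σ m s P : ℕ) : ℕ := maxp 28 (TT N) P (shm σ m s P)

/-- the same for functions -/
def pstF (σ s : ℕ) (f : ℕ → ℕ) (n : ℕ) : ℕ := Max.max (f n) (if s ≤ co σ n then f (n - σ * s) else 0)

theorem Pl.pst {σ m s : ℕ} (h : Pl N B P f) (hB : B ≤ 2 ^ 28) (hσ : 0 < σ)
    (hm : m * 24 * σ = N) (hs : s ≤ 24) : Pl N B (pst N σ m s P) (pstF σ s f) :=
  h.max (h.shm hB hσ hm hs) hB

/-- the prefix maxima of an axis -/
def pfull (N σ m P : ℕ) : ℕ :=
  pst N σ m 8 (pst N σ m 8 (pst N σ m 4 (pst N σ m 2 (pst N σ m 1 P))))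

def pfullF (σ : ℕ) (f : ℕ → ℕ) : ℕ → ℕ :=
  pstF σ 8 (pstF σ 8 (pstF σ 4 (pstF σ 2 (pstF σ 1 f))))

theorem Pl.pfull {σ m : ℕ} (h : Pl N B P f) (hB : B ≤ 2 ^ 28) (hσ : 0 < σ)
    (hm : m * 24 * σ = N) : Pl N B (pfull N σ m P) (pfullF σ f) :=
  ((((h.pst hB hσ hm (by norm_num)).pst hB hσ hm (by norm_num)).pst hB hσ hm (by norm_num)).pst hB
    hσ hm (by norm_num)).pst hB hσ hm (by norm_num)

theorem co_sub {σ n s : ℕ} (hs : s ≤ co σ n) : co σ (n - σ * s) = co σ n - s := by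
  have h1 : (n - σ * s) / σ = n / σ - s := Nat.sub_mul_div n σ s
  unfold co at hs ⊢
  rw [h1]
  generalize n / σ = q at hs ⊢
  omega

theorem pstF_ge {σ s J : ℕ} (hs : s ≤ J + 1)
    (h : ∀ n j, j ≤ J → j ≤ co σ n → f (n - σ * j) ≤ g n) :
    ∀ n j, j ≤ J + s → j ≤ co σ n → f (n - σ * j) ≤ pstF σ s g n := by
  intro n j hj hc
  unfold pstF
  rcases le_or_gt j J with h1 | h1
  · exact (h n j h1 hc).trans (le_max_left _ _)
  · refine le_trans ?_ (le_max_right _ _)
    rw [if_pos (by omega)]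
    have h2 := h (n - σ * s) (j - s) (by omega) (by rw [co_sub (by omega)]; omega)
    rw [Nat.sub_sub, ← mul_add, show s + (j - s) = j by omega] at h2
    exact h2

theorem pfullF_ge {σ n j : ℕ} (hj : j ≤ co σ n) : f (n - σ * j) ≤ pfullF σ f n := by
  have h0 : ∀ n j, j ≤ 0 → j ≤ co σ n → f (n - σ * j) ≤ f n := fun n j hj _ => by
    rw [show j = 0 by omega, mul_zero, Nat.sub_zero]
  have h1 := pstF_ge (s := 1) (by norm_num) h0
  have h2 := pstF_ge (s := 2) (by norm_num) h1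
  have h3 := pstF_ge (s := 4) (by norm_num) h2
  have h4 := pstF_ge (s := 8) (by norm_num) h3
  have h5 := pstF_ge (s := 8) (by norm_num) h4
  have hlt : co σ n < 24 := Nat.mod_lt _ (by norm_num)
  exact h5 n j (by omega) hj

/-! ### slices -/

/-- shift down by `c` digits -/
theorem Pl.shr {c : ℕ} (h : Pl N B P f) (hB : B ≤ 2 ^ 28) (hc : c ≤ N) (hB0 : 0 < B) :
    Pl N B (Nat.shiftRight P (29 * c)) (fun n => if n + c < N then f (n + c) else 0) := by
  refine ⟨?_, fun n hn => ?_⟩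
  · have h0 : Nat.shiftRight P (29 * c) = P / 2 ^ (29 * c) := Nat.shiftRight_eq_div_pow _ _
    obtain ⟨d, rfl⟩ := Nat.exists_eq_add_of_le hc
    rw [h0, h.1, pk_shr fun n hn => (h.2 n (by omega)).trans_le (hB.trans (by norm_num)),
      pk_ext (N := d) (M := c + d) (by omega) fun n h1 _ => by rw [if_neg (by omega)]]
    exact pk_congr fun n hn => by rw [if_pos (by omega), add_comm]
  · beta_reduce
    by_cases h1 : n + c < N
    · rw [if_pos h1]
      exact h.2 _ h1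
    · rw [if_neg h1]
      exact hB0

/-- the slice with coordinate 23, broadcast along the axis -/
def sl (σ m P : ℕ) : ℕ :=
  Nat.mul (Nat.land (Nat.shiftRight P (29 * (23 * σ))) (mz σ m)) (ones (29 * σ) 24)

def slF (N σ : ℕ) (f : ℕ → ℕ) (n : ℕ) : ℕ :=
  if n - σ * co σ n + 23 * σ < N then f (n - σ * co σ n + 23 * σ) else 0

theorem Pl.sl {σ m : ℕ} (h : Pl N B P f) (hB : B ≤ 2 ^ 28) (hB0 : 0 < B)
    (hσ : 0 < σ) (hm : m * 24 * σ = N) (hm0 : 0 < m) : Pl N B (sl σ m P) (slF N σ f) := by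
  have hc : 23 * σ ≤ N := by
    rw [← hm]
    nlinarith
  have h1 := h.shr (c := 23 * σ) hB hc hB0
  refine ⟨?_, fun n hn => ?_⟩
  · unfold NE.sl
    rw [h1.1, mz_eq hσ, hm, mask_land (B := B) (p := fun n => co σ n = 0) (hB.trans (by norm_num))
      h1.2]
    have h2 := bcast (k := 29) (m := m) (by norm_num) hσ
      (fun n => if n + 23 * σ < N then f (n + 23 * σ) else 0)
    rw [hm] at h2
    exact h2.symm
  · unfold slF
    by_cases h3 : n - σ * co σ n + 23 * σ < N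
    · rw [if_pos h3]
      exact h.2 _ h3
    · rw [if_neg h3]
      exact hB0

end Pool.Agent.Helper51.NE
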