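import Pool.Agent.Helper51.NE.Pack3

/-!
# Tables and ridges in a cube
-/

set_option autoImplicit false
set_option maxHeartbeats 400000

namespace Pool.Agent.Helper51.NE

open Finset

theorem getD_lt {B : ℕ} {l : List ℕ} (h : ∀ x ∈ l, x < B) (hB : 0 < B) (i : ℕ) : l.getD i 0 < B := by
  rcases lt_or_ge i l.length with hi | hi
  · rw [List.getD_eq_getElem _ _ hi]
    exact h _ (List.getElem_mem hi)
  · rw [List.getD_eq_default _ _ hi]
    exact hB

theorem getD_big {l : List ℕ} {i : ℕ} (h : l.length ≤ i) : l.getD i 0 = 0 :=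
  List.getD_eq_default _ _ h

/-- the list as a number with `L` digits of `k` bits -/
theorem hor_pk {k L : ℕ} {l : List ℕ} (hL : l.length ≤ L) :
    hor (2 ^ k) l = pk k L (fun n => l.getD n 0) := by
  rw [hor_eq, pk_ext hL fun n h _ => getD_big h]

/-- a function of one coordinate -/
def tabL (σ m : ℕ) (l : List ℕ) : ℕ := axp 29 σ m (hor (Nat.pow 2 (29 * σ)) l)

theorem Pl.tab {N B σ m : ℕ} {l : List ℕ} (hσ : 0 < σ) (hm : m * 24 * σ = N) (hl : l.length ≤ 24)
    (hb : ∀ x ∈ l, x < B) (hB : 0 < B) :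
    Pl N B (tabL σ m l) (fun n => l.getD (co σ n) 0) := by
  refine ⟨?_, fun n _ => getD_lt hb hB _⟩
  have h1 : hor (Nat.pow 2 (29 * σ)) l = pk (29 * σ) 24 (fun n => l.getD n 0) := hor_pk hl
  unfold tabL
  rw [h1, ← axp_eq (by norm_num) hσ (fun n => l.getD n 0), hm]

/-- three nested levels -/
theorem nest3 (k : ℕ) (F : ℕ → ℕ → ℕ → ℕ) :
    pk k (24 * 24 * 24) (fun n => F (n / 24 / 24) (n / 24 % 24) (n % 24)) =
      pk (k * 24 * 24) 24 (fun a => pk (k * 24) 24 (fun b => pk k 24 (F a b))) :=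
  rect2 k 24 24 F

/-- product of three tables -/
def prod3 (u v w : List ℕ) : ℕ :=
  Nat.mul (Nat.mul (hor (Nat.pow 2 (29 * 24 * 24)) u) (hor (Nat.pow 2 (29 * 24)) v))
    (hor (Nat.pow 2 29) w)

theorem prod3_eq {u v w : List ℕ} (hu : u.length ≤ 24) (hv : v.length ≤ 24) (hw : w.length ≤ 24) :
    prod3 u v w = pk 29 (24 * 24 * 24)
      (fun n => u.getD (n / 24 / 24) 0 * v.getD (n / 24 % 24) 0 * w.getD (n % 24) 0) := by
  have h1 : hor (Nat.pow 2 (29 * 24 * 24)) u = pk (29 * 24 * 24) 24 (fun n => u.getD n 0) := hor_pk hu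
  have h2 : hor (Nat.pow 2 (29 * 24)) v = pk (29 * 24) 24 (fun n => v.getD n 0) := hor_pk hv
  have h3 : hor (Nat.pow 2 29) w = pk 29 24 (fun n => w.getD n 0) := hor_pk hw
  rw [nest3 29 (fun a b c => u.getD a 0 * v.getD b 0 * w.getD c 0)]
  unfold prod3
  rw [h1, h2, h3]
  show pk (29 * 24 * 24) 24 (fun n => u.getD n 0) * pk (29 * 24) 24 (fun n => v.getD n 0) *
    pk 29 24 (fun n => w.getD n 0) = _
  rw [← pk_mul_right, ← pk_mul_right]
  refine pk_congr fun a _ => ?_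
  rw [← pk_smul (29 * 24) 24 (u.getD a 0) (fun n => v.getD n 0), ← pk_mul_right]
  refine pk_congr fun b _ => ?_
  rw [← pk_smul]

/-- a function of the sum of the three coordinates -/
def rid3 (l : List ℕ) : ℕ :=
  win (29 * 24) 24 (29 * 24 * 24) 24 (win 29 24 (29 * 24) 48 (hor (Nat.pow 2 29) l))

theorem rid3_eq {l : List ℕ} (hl : l.length ≤ 72) (hb : ∀ x ∈ l, x < 2 ^ 29) :
    rid3 l = pk 29 (24 * 24 * 24) (fun n => l.getD (n / 24 / 24 + n / 24 % 24 + n % 24) 0) := by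
  have h1 : hor (Nat.pow 2 29) l = pk 29 72 (fun n => l.getD n 0) := hor_pk hl
  rw [nest3 29 (fun a b c => l.getD (a + b + c) 0)]
  unfold rid3
  rw [h1, win_eq 48 (by norm_num) fun n _ => getD_lt hb (by norm_num) n,
    win_eq 24 (by norm_num) fun n _ => pk_lt fun c _ => getD_lt hb (by norm_num) _]

/-- a function of the sum of the coordinates `0`, `1` -/
def rid01 (l : List ℕ) : ℕ :=
  win (29 * 24) 24 (29 * 24 * 24) 24 (Nat.mul (hor (Nat.pow 2 (29 * 24)) l) (ones 29 24))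

theorem rid01_eq {l : List ℕ} (hl : l.length ≤ 48) (hb : ∀ x ∈ l, x < 2 ^ 29) :
    rid01 l = pk 29 (24 * 24 * 24) (fun n => l.getD (n / 24 / 24 + n / 24 % 24) 0) := by
  have h1 : hor (Nat.pow 2 (29 * 24)) l = pk (29 * 24) 48 (fun n => l.getD n 0) := hor_pk hl
  have h2 : Nat.mul (hor (Nat.pow 2 (29 * 24)) l) (ones 29 24) =
      pk (29 * 24) 48 (fun n => pk 29 24 (fun _ => l.getD n 0)) := by
    rw [h1, ← pk_ones (by norm_num)]
    show pk (29 * 24) 48 (fun n => l.getD n 0) * _ = _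
    rw [← pk_mul_right]
    exact pk_congr fun n _ => (pk_const 29 24 (l.getD n 0)).symm
  rw [nest3 29 (fun a b _ => l.getD (a + b) 0)]
  unfold rid01
  rw [h2, win_eq 24 (by norm_num) fun n _ => pk_lt fun c _ => getD_lt hb (by norm_num) _]

/-- a function of the sum of the coordinates `1`, `2` -/
def rid12 (l : List ℕ) : ℕ :=
  Nat.mul (win 29 24 (29 * 24) 24 (hor (Nat.pow 2 29) l)) (ones (29 * 24 * 24) 24)

theorem rid12_eq {l : List ℕ} (hl : l.length ≤ 48) (hb : ∀ x ∈ l, x < 2 ^ 29) :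
    rid12 l = pk 29 (24 * 24 * 24) (fun n => l.getD (n / 24 % 24 + n % 24) 0) := by
  have h1 : hor (Nat.pow 2 29) l = pk 29 48 (fun n => l.getD n 0) := hor_pk hl
  rw [nest3 29 (fun _ b c => l.getD (b + c) 0)]
  unfold rid12
  rw [h1, win_eq 24 (by norm_num) fun n _ => getD_lt hb (by norm_num) n,
    ← pk_ones (k := 29 * 24 * 24) (by norm_num) 24]
  show _ * pk (29 * 24 * 24) 24 (fun _ => 1) = _
  rw [← pk_const]

/-- a function of the sum of the coordinates `0`, `2` -/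
def rid02 (l : List ℕ) : ℕ :=
  Nat.mul (win 29 24 (29 * 24 * 24) 24 (hor (Nat.pow 2 29) l)) (ones (29 * 24) 24)

theorem rid02_eq {l : List ℕ} (hl : l.length ≤ 48) (hb : ∀ x ∈ l, x < 2 ^ 29) :
    rid02 l = pk 29 (24 * 24 * 24) (fun n => l.getD (n / 24 / 24 + n % 24) 0) := by
  have h1 : hor (Nat.pow 2 29) l = pk 29 48 (fun n => l.getD n 0) := hor_pk hl
  rw [nest3 29 (fun a _ c => l.getD (a + c) 0)]
  unfold rid02
  rw [h1, win_eq 24 (by norm_num) fun n _ => getD_lt hb (by norm_num) n,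
    ← pk_ones (k := 29 * 24) (by norm_num) 24]
  show _ * pk (29 * 24) 24 (fun _ => 1) = _
  rw [← pk_mul_right]
  exact pk_congr fun a _ => (pk_const _ _ _).symm

end Pool.Agent.Helper51.NE
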